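import Mathlib

open Filter Topology

/-!
Problem MP_b4da01_an, Q1, full positive answer: a Banach space which admits a twice Gateaux
differentiable norm and contains no copy of `c_0` is superreflexive.

Proof outline.  Let `F = p ^ 2`, `om F x h = F (x+h) + F (x-h) - 2 F x`.  A Baire argument gives for
every `x` a finite constant `T` with `om F x h ≤ T ‖h‖ ^ 2` for all `h` (`Bad F T x` means that `T`
does not work at `x`).
`lock`: if `Bad F (4 M) y` then `Bad F M (y + z)` for all `z` with `F (y ± z) ≤ F y + κ`.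
`one_step`: every finite system of centres and levels has a common step `h` and lower levels such
that on the body around each new centre either every point is `M`-bad or the constants are bounded
(tame).  `core`: iterate with `M = n`; if no level consists of tame centres only, compactness gives a
branch of locked centres; as there is no `c_0`, the corresponding sign series converges, and its sum
is bad for all `M`, a contradiction.  So some level is tame, which gives a convex function of class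
`C^{1,1}` whose gauge is an equivalent norm of power type 2 smoothness; this passes to finitely
representable spaces and implies reflexivity.
-/

namespace Pool.Agent.Results.MP_b4da01_an.SuperreflexiveYes

universe u v

/-- `D` is the Gateaux derivative of `φ` at `y`. -/
def HasGateauxDerivAt {X : Type u} [NormedAddCommGroup X] [NormedSpace ℝ X]
    (φ : X → ℝ) (D : X →L[ℝ] ℝ) (y : X) : Prop :=
  ∀ h : X, Tendsto (fun t : ℝ => (φ (y + t • h) - φ y) / t) (𝓝[≠] 0) (𝓝 (D h))

/-- `φ` is twice Gateaux differentiable at `x`. -/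
def TwiceGateauxAt {X : Type u} [NormedAddCommGroup X] [NormedSpace ℝ X]
    (φ : X → ℝ) (x : X) : Prop :=
  ∃ (D : X → (X →L[ℝ] ℝ)) (B : X →L[ℝ] X →L[ℝ] ℝ),
    (∀ᶠ y in 𝓝 x, HasGateauxDerivAt φ (D y) y) ∧
    (∀ h k : X, B h k = B k h) ∧
    (∀ h k : X, Tendsto (fun t : ℝ => (D (x + t • k) h - D x h) / t) (𝓝[>] 0) (𝓝 (B h k)))

/-- Some norm `p` equivalent to the given one is twice Gateaux differentiable off `0`. -/
def AdmitsTwiceGateauxNorm (X : Type u) [NormedAddCommGroup X] [NormedSpace ℝ X] : Prop :=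
  ∃ p : Seminorm ℝ X, (∃ a b : ℝ, 0 < a ∧ 0 < b ∧ ∀ x : X, a * ‖x‖ ≤ p x ∧ p x ≤ b * ‖x‖) ∧
    ∀ x : X, x ≠ 0 → TwiceGateauxAt (fun y : X => p y) x

/-- `X` contains a copy of `c_0`: some closed subspace is linearly isomorphic (homeomorphically) to
the space of real null sequences with the supremum norm. -/
def ContainsC0 (X : Type u) [NormedAddCommGroup X] [NormedSpace ℝ X] : Prop :=
  ∃ V : Submodule ℝ X, IsClosed (V : Set X) ∧ Nonempty (V ≃L[ℝ] ZeroAtInftyContinuousMap ℕ ℝ)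

/-- `Y` is finitely representable in `X`: every finite dimensional subspace of `Y` embeds linearly
in `X` with distortion at most `1 + ε`, for every `ε > 0`. -/
def FinitelyRepresentable (Y : Type v) [NormedAddCommGroup Y] [NormedSpace ℝ Y]
    (X : Type u) [NormedAddCommGroup X] [NormedSpace ℝ X] : Prop :=
  ∀ E : Submodule ℝ Y, FiniteDimensional ℝ E → ∀ ε : ℝ, 0 < ε →
    ∃ T : E →ₗ[ℝ] X, ∀ y : E, ‖y‖ ≤ ‖T y‖ ∧ ‖T y‖ ≤ (1 + ε) * ‖y‖

/-- Reflexivity: the canonical map into the bidual is onto. -/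
def Reflexive (Y : Type v) [NormedAddCommGroup Y] [NormedSpace ℝ Y] : Prop :=
  Function.Surjective (NormedSpace.inclusionInDoubleDual ℝ Y)

/-- Superreflexivity: every Banach space finitely representable in `X` is reflexive. -/
def SuperReflexive (X : Type u) [NormedAddCommGroup X] [NormedSpace ℝ X] : Prop :=
  ∀ (Y : Type v) [NormedAddCommGroup Y] [NormedSpace ℝ Y] [CompleteSpace Y],
    FinitelyRepresentable Y X → Reflexive Y

/-- An equivalent norm of power type 2 smoothness. -/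
def SmoothRenormable (X : Type u) [NormedAddCommGroup X] [NormedSpace ℝ X] : Prop :=
  ∃ p : Seminorm ℝ X, (∃ a b : ℝ, 0 < a ∧ 0 < b ∧ ∀ x : X, a * ‖x‖ ≤ p x ∧ p x ≤ b * ‖x‖) ∧
    ∃ K : ℝ, 0 < K ∧ ∀ x h : X, p x = 1 → p (x + h) + p (x - h) ≤ 2 + K * p h ^ 2

/-- Second difference. -/
def om {X : Type u} [NormedAddCommGroup X] [NormedSpace ℝ X] (F : X → ℝ) (x h : X) : ℝ :=
  F (x + h) + F (x - h) - 2 * F x

/-- The constant `M` is not a bound for the second differences of `F` at `x`. -/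
def Bad {X : Type u} [NormedAddCommGroup X] [NormedSpace ℝ X] (F : X → ℝ) (M : ℝ) (x : X) : Prop :=
  ∃ k : X, M * ‖k‖ ^ 2 < om F x k

/-- Sanity check: every real inner product space has a twice Gateaux differentiable norm. -/
theorem admits_of_inner (H : Type u) [NormedAddCommGroup H] [InnerProductSpace ℝ H] :
    AdmitsTwiceGateauxNorm H := by
  refine ⟨normSeminorm ℝ H, ⟨1, 1, one_pos, one_pos, fun x => by simp⟩, fun x hx => ?_⟩
  have hc : ContDiffAt ℝ 2 (fun y : H => ‖y‖) x := contDiffAt_norm ℝ hx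
  have hline : ∀ (g : H → ℝ) (g' : H →L[ℝ] ℝ) (y h : H), HasFDerivAt g g' y →
      Tendsto (fun t : ℝ => (g (y + t • h) - g y) / t) (𝓝[≠] 0) (𝓝 (g' h)) := by
    intro g g' y h hg
    have h1 : HasDerivAt (fun t : ℝ => g (y + t • h)) (g' h) 0 := by
      have h2 : HasDerivAt (fun t : ℝ => y + t • h) h 0 := by
        simpa using ((hasDerivAt_id (0:ℝ)).smul_const h).const_add y
      have h3 : HasFDerivAt g g' (y + (0:ℝ) • h) := by simpa using hg
      exact h3.comp_hasDerivAt (0:ℝ) h2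
    have h4 := hasDerivAt_iff_tendsto_slope.1 h1
    refine h4.congr fun t => ?_
    simp [slope_def_field]
  have hev : ∀ᶠ y in 𝓝 x, HasFDerivAt (fun y : H => ‖y‖) (fderiv ℝ (fun y : H => ‖y‖) y) y := by
    filter_upwards [isOpen_ne.mem_nhds hx] with y hy
    exact ((contDiffAt_norm ℝ hy (n := 1)).differentiableAt (by norm_num)).hasFDerivAt
  have hc' : ContDiffAt ℝ 1 (fderiv ℝ (fun y : H => ‖y‖)) x :=
    hc.fderiv_right (by norm_num)
  have hd : HasFDerivAt (fderiv ℝ (fun y : H => ‖y‖)) (fderiv ℝ (fderiv ℝ (fun y : H => ‖y‖)) x) x :=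
    (hc'.differentiableAt (by norm_num)).hasFDerivAt
  set B := fderiv ℝ (fderiv ℝ (fun y : H => ‖y‖)) x with hB
  have hsymm : ∀ h k : H, B h k = B k h := fun h k =>
    second_derivative_symmetric_of_eventually hev hd h k
  refine ⟨fderiv ℝ (fun y : H => ‖y‖), B, ?_, hsymm, ?_⟩
  · filter_upwards [hev] with y hy
    intro h
    exact hline _ _ y h hy
  · intro h k
    have h5 : HasFDerivAt (fun y => fderiv ℝ (fun y : H => ‖y‖) y h) (B.flip h) x := by
      have := hd.clm_apply (hasFDerivAt_const h x)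
      simpa using this
    have h6 := hline _ _ x k h5
    have h7 : (B.flip h) k = B h k := by
      rw [ContinuousLinearMap.flip_apply, hsymm]
    rw [h7] at h6
    exact h6.mono_left (nhdsWithin_mono _ (fun t ht => ne_of_gt ht))


section core
variable {X : Type u} [NormedAddCommGroup X] [NormedSpace ℝ X]

theorem mid_le {F : X → ℝ} (hF : ConvexOn ℝ Set.univ F) (a b : X) :
    F ((1 / 2 : ℝ) • a + (1 / 2 : ℝ) • b) ≤ 1 / 2 * F a + 1 / 2 * F b := by
  have := hF.2 (Set.mem_univ a) (Set.mem_univ b) (by norm_num : (0:ℝ) ≤ 1 / 2)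
    (by norm_num : (0:ℝ) ≤ 1 / 2) (by norm_num)
  simpa using this

theorem om_lock {F : X → ℝ} (hF : ConvexOn ℝ Set.univ F) (y z k : X) :
    2 * (om F y k - om F y z) ≤ om F (y + z) ((2 : ℝ) • k) := by
  unfold om
  have h1 := mid_le hF (y + z + (2 : ℝ) • k) (y - z)
  have h2 := mid_le hF (y + z - (2 : ℝ) • k) (y - z)
  have e1 : (1 / 2 : ℝ) • (y + z + (2 : ℝ) • k) + (1 / 2 : ℝ) • (y - z) = y + k := by module
  have e2 : (1 / 2 : ℝ) • (y + z - (2 : ℝ) • k) + (1 / 2 : ℝ) • (y - z) = y - k := by module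
  rw [e1] at h1
  rw [e2] at h2
  linarith

theorem bad_mono {F : X → ℝ} {M M' : ℝ} (h : M ≤ M') {x : X} (hx : Bad F M' x) : Bad F M x := by
  obtain ⟨k, hk⟩ := hx
  exact ⟨k, lt_of_le_of_lt (mul_le_mul_of_nonneg_right h (by positivity)) hk⟩

theorem lock {F : X → ℝ} (hF : ConvexOn ℝ Set.univ F) {M : ℝ} (hM : 0 ≤ M) {y : X}
    (hy : Bad F (4 * M) y) : ∃ κ : ℝ, 0 < κ ∧ ∀ z, F (y + z) ≤ F y + κ → F (y - z) ≤ F y + κ →
      Bad F M (y + z) := by
  obtain ⟨k, hk⟩ := hy
  have hpos : 0 < om F y k := lt_of_le_of_lt (by positivity) hk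
  refine ⟨om F y k / 4, by linarith, fun z h1 h2 => ⟨(2 : ℝ) • k, ?_⟩⟩
  have h3 := om_lock hF y z k
  have h4 : om F y z ≤ om F y k / 2 := by
    have : om F y z = F (y + z) + F (y - z) - 2 * F y := rfl
    linarith
  rw [norm_smul, mul_pow]
  norm_num
  linarith

/-- Signs. -/
def sg (τ : Bool) : ℝ := if τ then 1 else -1

theorem sg_mul_sg (τ : Bool) : sg τ * sg τ = 1 := by cases τ <;> simp [sg]

/-- The body of a finite system of nodes. -/
def Body (F : X → ℝ) {ι : Type} (P : ι → X) (L : ι → ℝ) (z : X) : Prop :=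
  ∀ i, F (P i + z) < L i ∧ F (P i - z) < L i

theorem body_sg {F : X → ℝ} {ι : Type} {P : ι → X} {L : ι → ℝ} {z : X} (h : Body F P L z)
    (τ : Bool) : Body F P L (sg τ • z) := by
  intro i
  cases τ
  · simpa [sg, sub_eq_add_neg] using (h i).symm
  · simpa [sg] using h i

theorem one_step_aux {F : X → ℝ} (hF : ConvexOn ℝ Set.univ F) {ι : Type} [Fintype ι]
    [DecidableEq ι] (P : ι → X) (L : ι → ℝ) (M : ℝ) (hM : 0 ≤ M) (m : ℕ) :
    ∀ (h : X) (S : Finset (ι × Bool)), Fintype.card (ι × Bool) ≤ S.card + m →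
      (∀ j : ι × Bool, F (P j.1 + sg j.2 • h) < L j.1) →
      (∀ j ∈ S, Bad F (4 ^ (m + 1) * M) (P j.1 + sg j.2 • h)) →
      ∃ (h : X) (L' : ι × Bool → ℝ), (∀ j : ι × Bool, F (P j.1 + sg j.2 • h) < L' j) ∧
        (∀ j : ι × Bool, L' j < L j.1) ∧
        ∀ j : ι × Bool, (∀ z, Body F (fun j : ι × Bool => P j.1 + sg j.2 • h) L' z →
            Bad F M (P j.1 + sg j.2 • h + z)) ∨
          (∃ T, ∀ z, Body F (fun j : ι × Bool => P j.1 + sg j.2 • h) L' z →
            ¬ Bad F T (P j.1 + sg j.2 • h + z)) := by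
  induction m with
  | zero =>
    intro h S hS hh hb
    have hSu : ∀ j, j ∈ S := by
      have : S.card = Fintype.card (ι × Bool) := le_antisymm (Finset.card_le_univ S) (by simpa using hS)
      have h2 := (Finset.card_eq_iff_eq_univ S).1 this
      intro j; rw [h2]; exact Finset.mem_univ j
    have hlock : ∀ j : ι × Bool, ∃ κ : ℝ, 0 < κ ∧ ∀ z, F (P j.1 + sg j.2 • h + z) ≤ F (P j.1 + sg j.2 • h) + κ →
        F (P j.1 + sg j.2 • h - z) ≤ F (P j.1 + sg j.2 • h) + κ → Bad F M (P j.1 + sg j.2 • h + z) := by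
      intro j
      exact lock hF hM (by simpa using hb j (hSu j))
    choose κ hκ hκ2 using hlock
    refine ⟨h, fun j => min (F (P j.1 + sg j.2 • h) + κ j) ((F (P j.1 + sg j.2 • h) + L j.1) / 2),
      ?_, ?_, ?_⟩
    · intro j
      refine lt_min (by linarith [hκ j]) (by linarith [hh j])
    · intro j
      exact lt_of_le_of_lt (min_le_right _ _) (by linarith [hh j])
    · intro j
      left
      intro z hz
      have := hz j
      exact hκ2 j z (le_trans this.1.le (min_le_left _ _)) (le_trans this.2.le (min_le_left _ _))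
  | succ m ih =>
    intro h S hS hh hb
    have hlock : ∀ j : ι × Bool, ∃ κ : ℝ, 0 < κ ∧ (j ∈ S → ∀ z, F (P j.1 + sg j.2 • h + z) ≤ F (P j.1 + sg j.2 • h) + κ →
        F (P j.1 + sg j.2 • h - z) ≤ F (P j.1 + sg j.2 • h) + κ →
          Bad F (4 ^ (m + 1) * M) (P j.1 + sg j.2 • h + z)) := by
      intro j
      by_cases hj : j ∈ S
      · have h1 := hb j hj
        have h2 : (4:ℝ) ^ (m + 1 + 1) * M = 4 * (4 ^ (m + 1) * M) := by ring
        rw [h2] at h1
        obtain ⟨κ, hk, hk2⟩ := lock hF (by positivity) h1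
        exact ⟨κ, hk, fun _ => hk2⟩
      · exact ⟨1, one_pos, fun h => absurd h hj⟩
    choose κ hκ hκ2 using hlock
    set L' : ι × Bool → ℝ := fun j => min (F (P j.1 + sg j.2 • h) + κ j)
      ((F (P j.1 + sg j.2 • h) + L j.1) / 2) with hL'
    have hL1 : ∀ j, F (P j.1 + sg j.2 • h) < L' j := fun j =>
      lt_min (by linarith [hκ j]) (by linarith [hh j])
    have hL2 : ∀ j, L' j < L j.1 := fun j =>
      lt_of_le_of_lt (min_le_right _ _) (by linarith [hh j])
    have hbad : ∀ j ∈ S, ∀ z, Body F (fun j : ι × Bool => P j.1 + sg j.2 • h) L' z →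
        Bad F (4 ^ (m + 1) * M) (P j.1 + sg j.2 • h + z) := by
      intro j hj z hz
      have := hz j
      exact hκ2 j hj z (le_trans this.1.le (min_le_left _ _)) (le_trans this.2.le (min_le_left _ _))
    by_cases hall : ∀ j, j ∉ S → ∃ T, ∀ z, Body F (fun j : ι × Bool => P j.1 + sg j.2 • h) L' z →
            ¬ Bad F T (P j.1 + sg j.2 • h + z)
    · refine ⟨h, L', hL1, hL2, fun j => ?_⟩
      by_cases hj : j ∈ S
      · left
        intro z hz
        refine bad_mono ?_ (hbad j hj z hz)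
        nlinarith [one_le_pow₀ (by norm_num : (1:ℝ) ≤ 4) (n := m + 1)]
      · right
        exact hall j hj
    · push Not at hall
      obtain ⟨j0, hj0, hw⟩ := hall
      obtain ⟨w, hwB, hwbad⟩ := hw (4 ^ (m + 1) * M)
      have hz := body_sg hwB j0.2
      refine ih (h + sg j0.2 • w) (insert j0 S) ?_ ?_ ?_
      · rw [Finset.card_insert_of_notMem hj0]
        omega
      · intro j
        have h1 := (body_sg hz j.2) j
        have e : P j.1 + sg j.2 • (h + sg j0.2 • w) = P j.1 + sg j.2 • h + sg j.2 • sg j0.2 • w := by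
          rw [smul_add, add_assoc]
        rw [e]
        exact lt_trans h1.1 (hL2 j)
      · intro j hj
        have e : P j.1 + sg j.2 • (h + sg j0.2 • w) = P j.1 + sg j.2 • h + sg j.2 • sg j0.2 • w := by
          rw [smul_add, add_assoc]
        rw [e]
        rcases Finset.mem_insert.1 hj with rfl | hj
        · have : sg j.2 • sg j.2 • w = w := by
            rw [smul_smul, sg_mul_sg, one_smul]
          rw [this]
          exact hwbad
        · exact hbad j hj _ (body_sg hz j.2)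

theorem one_step {F : X → ℝ} (hF : ConvexOn ℝ Set.univ F) {ι : Type} [Fintype ι]
    [DecidableEq ι] (P : ι → X) (L : ι → ℝ) (hL : ∀ i, F (P i) < L i) (M : ℝ) (hM : 0 ≤ M) :
      ∃ (h : X) (L' : ι × Bool → ℝ), (∀ j : ι × Bool, F (P j.1 + sg j.2 • h) < L' j) ∧
        (∀ j : ι × Bool, L' j < L j.1) ∧
        ∀ j : ι × Bool, (∀ z, Body F (fun j : ι × Bool => P j.1 + sg j.2 • h) L' z →
            Bad F M (P j.1 + sg j.2 • h + z)) ∨
          (∃ T, ∀ z, Body F (fun j : ι × Bool => P j.1 + sg j.2 • h) L' z →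
            ¬ Bad F T (P j.1 + sg j.2 • h + z)) := by
  refine one_step_aux hF P L M hM (Fintype.card (ι × Bool)) 0 ∅ (by simp) ?_ ?_
  · intro j
    simpa using hL j.1
  · intro j hj
    simp at hj

/-- Nodes of the binary tree at level `n`. -/
def Node : ℕ → Type
  | 0 => Unit
  | (n + 1) => Node n × Bool

instance instFintypeNode : (n : ℕ) → Fintype (Node n)
  | 0 => inferInstanceAs (Fintype Unit)
  | (n + 1) => @instFintypeProd _ _ (instFintypeNode n) _

instance instNonemptyNode : (n : ℕ) → Nonempty (Node n)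
  | 0 => ⟨()⟩
  | (n + 1) => by
    obtain ⟨a⟩ := instNonemptyNode n
    exact ⟨(a, true)⟩

/-- The node of level `n` on a branch. -/
def nd (ε : ℕ → Bool) : (n : ℕ) → Node n
  | 0 => ()
  | (n + 1) => (nd ε n, ε n)

theorem exists_nd : ∀ (n : ℕ) (i : Node n), ∃ ε : ℕ → Bool, nd ε n = i := by
  have key : ∀ (n : ℕ) (ε ε' : ℕ → Bool), (∀ m < n, ε m = ε' m) → nd ε n = nd ε' n := by
    intro n
    induction n with
    | zero => intro ε ε' _; rfl
    | succ n ih =>
      intro ε ε' h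
      change (nd ε n, ε n) = (nd ε' n, ε' n)
      rw [ih ε ε' (fun m hm => h m (by omega)), h n (by omega)]
  intro n
  induction n with
  | zero => intro i; exact ⟨fun _ => true, rfl⟩
  | succ n ih =>
    intro i
    obtain ⟨ε, hε⟩ := ih i.1
    refine ⟨fun m => if m < n then ε m else i.2, ?_⟩
    change (nd _ n, _) = i
    have h1 : nd (fun m => if m < n then ε m else i.2) n = nd ε n :=
      key n _ _ (fun m hm => by simp [hm])
    rw [h1, hε]
    simp

theorem isClosed_nd : ∀ (n : ℕ) (s : Set (Node n)), IsClosed {ε : ℕ → Bool | nd ε n ∈ s} := by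
  intro n
  induction n with
  | zero =>
    intro s
    by_cases h : (() : Node 0) ∈ s
    · have : {ε : ℕ → Bool | nd ε 0 ∈ s} = Set.univ :=
        Set.eq_univ_of_forall fun ε => h
      rw [this]; exact isClosed_univ
    · have : {ε : ℕ → Bool | nd ε 0 ∈ s} = ∅ :=
        Set.eq_empty_of_forall_notMem fun ε hε => h hε
      rw [this]; exact isClosed_empty
  | succ n ih =>
    intro s
    have : {ε : ℕ → Bool | nd ε (n + 1) ∈ s} =
        ({ε : ℕ → Bool | nd ε n ∈ {i | (i, true) ∈ s}} ∩ {ε | ε n = true}) ∪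
        ({ε : ℕ → Bool | nd ε n ∈ {i | (i, false) ∈ s}} ∩ {ε | ε n = false}) := by
      ext ε
      change (nd ε n, ε n) ∈ s ↔ _
      cases h : ε n <;> simp [h]
    rw [this]
    have hc : ∀ b : Bool, IsClosed {ε : ℕ → Bool | ε n = b} := fun b =>
      isClosed_eq (continuous_apply n) continuous_const
    exact ((ih _).inter (hc true)).union ((ih _).inter (hc false))

/-- A finite system of nodes of level `n`. -/
structure St (F : X → ℝ) (n : ℕ) where
  P : Node n → X
  L : Node n → ℝ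
  hL : ∀ i, F (P i) < L i

/-- Tame nodes. -/
def Tame (F : X → ℝ) {n : ℕ} (s : St F n) (i : Node n) : Prop :=
  ∃ T, ∀ z, Body F s.P s.L z → ¬ Bad F T (s.P i + z)

theorem exists_next {F : X → ℝ} (hF : ConvexOn ℝ Set.univ F) (n : ℕ) (s : St F n) :
    ∃ s' : St F (n + 1), (∃ h : X, ∀ j : Node n × Bool, s'.P j = s.P j.1 + sg j.2 • h) ∧
      (∀ j : Node n × Bool, s'.L j < s.L j.1) ∧
      ∀ j : Node n × Bool, (∀ z, Body F s'.P s'.L z → Bad F (n : ℝ) (s'.P j + z)) ∨ Tame F s' j := by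
  classical
  obtain ⟨h, L', h1, h2, h3⟩ := one_step hF s.P s.L s.hL (n : ℝ) (Nat.cast_nonneg n)
  exact ⟨⟨fun j : Node n × Bool => s.P j.1 + sg j.2 • h, L', h1⟩, ⟨h, fun j => rfl⟩, h2, h3⟩

theorem core [CompleteSpace X] {F : X → ℝ} (hF : ConvexOn ℝ Set.univ F) (hcont : Continuous F)
    (hfin : ∀ x, ∃ T, ¬ Bad F T x) (R : ℝ) (hR : ∀ x, F x < 1 → ‖x‖ ≤ R) (h0 : F 0 < 1)
    (hser : ∀ (h : ℕ → X) (C : ℝ), (∀ (n : ℕ) (ε : ℕ → Bool),
      ‖∑ i ∈ Finset.range n, (if ε i then h i else - h i)‖ ≤ C) → ∀ ε : ℕ → Bool,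
      CauchySeq (fun n => ∑ i ∈ Finset.range n, (if ε i then h i else - h i))) :
    ∃ (n : ℕ) (s : St F n), ∀ i, Tame F s i := by
  by_contra hcon
  push Not at hcon
  choose nx hnx1 hnx2 hnx3 using fun n => exists_next hF n
  let st : (n : ℕ) → St F n := fun n =>
    Nat.rec (motive := fun n => St F n) ⟨fun _ => 0, fun _ => 1, fun _ => h0⟩ (fun n s => nx n s) n
  have hst : ∀ n, st (n + 1) = nx n (st n) := fun n => rfl
  choose hh hhh using fun n => hnx1 n (st n)
  have hP : ∀ n (j : Node n × Bool), (st (n + 1)).P j = (st n).P j.1 + sg j.2 • hh n := hhh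
  have hLL : ∀ n (j : Node n × Bool), (st (n + 1)).L j < (st n).L j.1 := fun n => hnx2 n (st n)
  have hlt : ∀ n (j : Node n × Bool), (∀ z, Body F (st (n + 1)).P (st (n + 1)).L z →
      Bad F (n : ℝ) ((st (n + 1)).P j + z)) ∨ Tame F (st (n + 1)) j := fun n => hnx3 n (st n)
  -- bodies are nested
  have hnest : ∀ n (τ : Bool) (z : X), Body F (st (n + 1)).P (st (n + 1)).L z →
      Body F (st n).P (st n).L (sg τ • hh n + z) := by
    intro n τ z hz i
    constructor
    · have h1 := (hz ((i, τ) : Node n × Bool)).1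
      rw [hP] at h1
      have h2 := hLL n (i, τ)
      rw [add_assoc] at h1
      exact lt_trans h1 h2
    · have h1 := (hz ((i, !τ) : Node n × Bool)).2
      rw [hP] at h1
      have h2 := hLL n (i, !τ)
      have e : (st n).P i - (sg τ • hh n + z) = (st n).P i + sg (!τ) • hh n - z := by
        cases τ <;> simp [sg] <;> abel
      rw [e]
      exact lt_trans h1 h2
  have htame : ∀ n (j : Node n × Bool), Tame F (st n) j.1 → Tame F (st (n + 1)) j := by
    rintro n j ⟨T, hT⟩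
    refine ⟨T, fun z hz => ?_⟩
    have := hT _ (hnest n j.2 z hz)
    rw [hP, add_assoc]
    exact this
  -- a branch of non tame nodes
  obtain ⟨ε, hε⟩ : (⋂ n, {ε : ℕ → Bool | ¬ Tame F (st n) (nd ε n)}).Nonempty := by
    refine IsCompact.nonempty_iInter_of_sequence_nonempty_isCompact_isClosed _ ?_ ?_ ?_ ?_
    · intro n ε hε ht
      exact hε (htame n (nd ε n, ε n) ht)
    · intro n
      obtain ⟨i, hi⟩ := hcon n (st n)
      obtain ⟨ε, rfl⟩ := exists_nd n i
      exact ⟨ε, hi⟩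
    · exact (isClosed_nd 0 {i | ¬ Tame F (st 0) i}).isCompact
    · intro n
      exact isClosed_nd n {i | ¬ Tame F (st n) i}
  rw [Set.mem_iInter] at hε
  -- centres along a branch
  have hPc : ∀ (ε : ℕ → Bool) n, (st n).P (nd ε n) =
      ∑ i ∈ Finset.range n, (if ε i then hh i else - hh i) := by
    intro ε n
    induction n with
    | zero => rfl
    | succ n ih =>
      rw [Finset.sum_range_succ, ← ih]
      have := hP n (nd ε n, ε n)
      rw [show nd ε (n + 1) = (nd ε n, ε n) from rfl, this]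
      cases h : ε n <;> simp [sg]
  -- Lemma A
  have hA : ∀ (k n : ℕ) (δ : Node n) (ε : ℕ → Bool),
      F ((st n).P δ + ((st (n + k)).P (nd ε (n + k)) - (st n).P (nd ε n))) < (st n).L δ := by
    intro k
    induction k with
    | zero => intro n δ ε; simpa using (st n).hL δ
    | succ k ih =>
      intro n δ ε
      have h1 := ih (n + 1) ((δ, ε n) : Node n × Bool) ε
      have h2 := hP n (δ, ε n)
      have h3 := hP n (nd ε n, ε n)
      rw [h2, show nd ε (n + 1) = (nd ε n, ε n) from rfl, h3] at h1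
      have e : (st n).P δ + ((st (n + (k + 1))).P (nd ε (n + (k + 1))) - (st n).P (nd ε n)) =
          (st n).P δ + sg (ε n) • hh n + ((st (n + 1 + k)).P (nd ε (n + 1 + k)) -
            ((st n).P (nd ε n) + sg (ε n) • hh n)) := by
        have e1 : n + (k + 1) = n + 1 + k := by ring
        rw [e1]
        abel
      rw [e]
      exact lt_trans h1 (hLL n (δ, ε n))
  have hbd : ∀ (n : ℕ) (ε : ℕ → Bool), ‖∑ i ∈ Finset.range n, (if ε i then hh i else - hh i)‖ ≤ R := by
    intro n ε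
    rw [← hPc]
    apply hR
    have := hA n 0 () ε
    have e0 : (st 0).P () = 0 := rfl
    have e1 : (st 0).P (nd ε 0) = 0 := rfl
    have e2 : (st 0).L () = 1 := rfl
    rw [e0, e1, e2, zero_add, sub_zero, zero_add] at this
    exact this
  have hlim : ∀ ε : ℕ → Bool, ∃ x, Tendsto (fun n => (st n).P (nd ε n)) atTop (𝓝 x) := by
    intro ε
    have := cauchySeq_tendsto_of_complete (hser hh R hbd ε)
    obtain ⟨x, hx⟩ := this
    refine ⟨x, ?_⟩
    simpa only [hPc] using hx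
  obtain ⟨x, hx⟩ := hlim ε
  -- the complementary branch
  have hcomp : ∀ m, (st m).P (nd (fun i => !(ε i)) m) = - (st m).P (nd ε m) := by
    intro m
    rw [hPc, hPc, ← Finset.sum_neg_distrib]
    refine Finset.sum_congr rfl fun i _ => ?_
    cases ε i <;> simp
  have hstrict : ∀ (ε : ℕ → Bool) (x : X), Tendsto (fun n => (st n).P (nd ε n)) atTop (𝓝 x) →
      ∀ (n : ℕ) (δ : Node n), F ((st n).P δ + (x - (st n).P (nd ε n))) < (st n).L δ := by
    intro ε x hx n δ
    have h2 := hP n (δ, ε n)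
    have h3 := hP n (nd ε n, ε n)
    have hle : F ((st n).P δ + (x - (st n).P (nd ε n))) ≤ (st (n + 1)).L (δ, ε n) := by
      have ht : Tendsto (fun k => F ((st (n+1)).P (δ, ε n) + ((st (n + 1 + k)).P (nd ε (n + 1 + k)) -
          (st (n+1)).P (nd ε (n+1))))) atTop
          (𝓝 (F ((st (n+1)).P (δ, ε n) + (x - (st (n+1)).P (nd ε (n+1)))))) := by
        apply (hcont.tendsto _).comp
        apply Tendsto.const_add
        apply Tendsto.sub_const
        exact hx.comp (tendsto_atTop_mono (fun k => by omega : ∀ k, k ≤ n + 1 + k) tendsto_id)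
      have h4 := le_of_tendsto ht (Eventually.of_forall fun k => (hA k (n+1) (δ, ε n) ε).le)
      have e : (st n).P δ + (x - (st n).P (nd ε n)) =
          (st (n+1)).P (δ, ε n) + (x - (st (n+1)).P (nd ε (n+1))) := by
        rw [show nd ε (n + 1) = (nd ε n, ε n) from rfl, h2, h3]
        simp only
        abel
      rw [e]
      exact h4
    exact lt_of_le_of_lt hle (hLL n (δ, ε n))
  have hbody : ∀ n, Body F (st n).P (st n).L (x - (st n).P (nd ε n)) := by
    intro n δ
    refine ⟨hstrict ε x hx n δ, ?_⟩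
    have hx' : Tendsto (fun m => (st m).P (nd (fun i => !(ε i)) m)) atTop (𝓝 (-x)) := by
      simp only [hcomp]
      exact hx.neg
    have := hstrict _ _ hx' n δ
    rw [hcomp] at this
    have e : (st n).P δ - (x - (st n).P (nd ε n)) = (st n).P δ + (-x - -(st n).P (nd ε n)) := by abel
    rw [e]
    exact this
  obtain ⟨T, hT⟩ := hfin x
  obtain ⟨N, hN⟩ := exists_nat_ge T
  have hloc := (hlt N (nd ε N, ε N)).resolve_right (hε (N + 1))
  have := hloc _ (hbody (N + 1))
  have e : (st (N+1)).P (nd ε N, ε N) + (x - (st (N+1)).P (nd ε (N + 1))) = x := by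
    rw [show nd ε (N + 1) = (nd ε N, ε N) from rfl]
    abel
  rw [e] at this
  exact hT (bad_mono hN this)

end core


/-- Rosenthal's lemma -/
theorem rosenthal (e : ℝ) (he : 0 < e) (M : ℕ) : ∀ A : ℕ → ℕ → ℝ, (∀ k j, 0 ≤ A k j) →
    (∀ k (F : Finset ℕ), ∑ j ∈ F, A k j ≤ M * e) →
    ∃ φ : ℕ → ℕ, Function.Injective φ ∧
      ∀ k (F : Finset ℕ), k ∉ F → ∑ j ∈ F, A (φ k) (φ j) ≤ e := by
  induction M with
  | zero =>
    intro A hA h
    refine ⟨id, Function.injective_id, fun k F _ => ?_⟩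
    have := h k F
    simp only [Nat.cast_zero, zero_mul] at this
    exact this.trans he.le
  | succ M ih =>
    intro A hA h
    by_cases hex : ∃ p, ∀ k (F : Finset ℕ), k ∉ F → ∑ j ∈ F, A (Nat.pair p k) (Nat.pair p j) ≤ e
    · obtain ⟨p, hp⟩ := hex
      exact ⟨Nat.pair p, fun a b hab => (Nat.pair_eq_pair.1 hab).2, hp⟩
    · push Not at hex
      choose i F hiF hF using hex
      have hinj : Function.Injective (fun p => Nat.pair p (i p)) :=
        fun a b hab => (Nat.pair_eq_pair.1 hab).1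
      obtain ⟨φ, hφ, hφ2⟩ := ih (fun p q => A (Nat.pair p (i p)) (Nat.pair q (i q)))
        (fun _ _ => hA _ _) (by
          intro p G
          have hdisj : Disjoint (G.image fun q => Nat.pair q (i q)) ((F p).image (Nat.pair p)) := by
            rw [Finset.disjoint_left]
            intro x hx hx'
            rw [Finset.mem_image] at hx hx'
            obtain ⟨q, -, rfl⟩ := hx
            obtain ⟨r, hr, hr'⟩ := hx'
            obtain ⟨h1, h2⟩ := Nat.pair_eq_pair.1 hr'
            subst h1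
            rw [h2] at hr
            exact hiF _ hr
          have h1 := h (Nat.pair p (i p)) ((G.image fun q => Nat.pair q (i q)) ∪
            ((F p).image (Nat.pair p)))
          rw [Finset.sum_union hdisj, Finset.sum_image (fun a _ b _ hab => hinj hab),
            Finset.sum_image (fun a _ b _ hab => (Nat.pair_eq_pair.1 hab).2)] at h1
          have h2 := hF p
          push_cast at h1
          show ∑ j ∈ G, A (Nat.pair p (i p)) (Nat.pair j (i j)) ≤ M * e
          linarith)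
      exact ⟨fun p => Nat.pair (φ p) (i (φ p)), fun a b hab => hφ (hinj hab), hφ2⟩

theorem sign_bound {X : Type u} [NormedAddCommGroup X] [NormedSpace ℝ X] {h : ℕ → X} {C : ℝ}
    (hC : ∀ (n : ℕ) (ε : ℕ → Bool),
      ‖∑ i ∈ Finset.range n, (if ε i then h i else - h i)‖ ≤ C) (f : X →L[ℝ] ℝ) (hf : ‖f‖ ≤ 1)
    (n : ℕ) : ∑ i ∈ Finset.range n, |f (h i)| ≤ C := by
  have h1 := hC n (fun i => decide (0 ≤ f (h i)))
  have h2 : f (∑ i ∈ Finset.range n, (if decide (0 ≤ f (h i)) then h i else - h i)) =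
      ∑ i ∈ Finset.range n, |f (h i)| := by
    rw [map_sum]
    refine Finset.sum_congr rfl fun i _ => ?_
    by_cases h0 : 0 ≤ f (h i)
    · simp [h0, abs_of_nonneg h0]
    · simp [h0, abs_of_neg (not_le.1 h0)]
  rw [← h2]
  refine (le_abs_self _).trans ?_
  rw [← Real.norm_eq_abs]
  refine (f.le_opNorm _).trans ?_
  calc ‖f‖ * ‖_‖ ≤ 1 * C := by
        refine mul_le_mul hf h1 (norm_nonneg _) zero_le_one
    _ = C := one_mul C

/-- block sums -/
theorem block_sum (t : ℕ → ℝ) (a : ℕ → ℕ) (ha : ∀ k, a k ≤ a (k + 1)) (K : ℕ) :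
    ∑ k ∈ Finset.range K, ∑ i ∈ Finset.Ico (a k) (a (k + 1)), t i =
      ∑ i ∈ Finset.Ico (a 0) (a K), t i := by
  have hmono : Monotone a := monotone_nat_of_le_succ ha
  induction K with
  | zero => simp
  | succ K ih =>
    rw [Finset.sum_range_succ, ih, Finset.sum_Ico_consecutive _ (hmono (Nat.zero_le K)) (ha K)]

theorem c0_of_seq {X : Type u} [NormedAddCommGroup X] [NormedSpace ℝ X] [CompleteSpace X]
    {v : ℕ → X} {ψ : ℕ → X →L[ℝ] ℝ} {C d : ℝ} (hd : 0 < d) (hC0 : 0 ≤ C)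
    (hv : ∀ f : X →L[ℝ] ℝ, ‖f‖ ≤ 1 → ∀ F : Finset ℕ, ∑ k ∈ F, |f (v k)| ≤ C)
    (hψ : ∀ k, ‖ψ k‖ ≤ 1) (hψv : ∀ k, d ≤ ψ k (v k))
    (hoff : ∀ k (F : Finset ℕ), k ∉ F → ∑ j ∈ F, |ψ k (v j)| ≤ d / 2) : ContainsC0 X := by
  have hb : ∀ (c : ℕ → ℝ) (m : ℝ), 0 ≤ m → ∀ F : Finset ℕ, (∀ k ∈ F, |c k| ≤ m) →
      ‖∑ k ∈ F, c k • v k‖ ≤ m * C := by
    intro c m hm F hc
    obtain ⟨f, hf, hf2⟩ := exists_dual_vector'' ℝ (∑ k ∈ F, c k • v k)
    have h1 : ‖∑ k ∈ F, c k • v k‖ = ∑ k ∈ F, c k * f (v k) := by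
      have : (‖∑ k ∈ F, c k • v k‖ : ℝ) = f (∑ k ∈ F, c k • v k) := hf2.symm
      rw [this, map_sum]
      simp only [map_smul, smul_eq_mul]
    rw [h1]
    calc ∑ k ∈ F, c k * f (v k) ≤ ∑ k ∈ F, m * |f (v k)| := by
          refine Finset.sum_le_sum fun k hk => ?_
          refine (le_abs_self _).trans ?_
          rw [abs_mul]
          exact mul_le_mul_of_nonneg_right (hc k hk) (abs_nonneg _)
      _ = m * ∑ k ∈ F, |f (v k)| := by rw [Finset.mul_sum]
      _ ≤ m * C := by gcongr; exact hv f hf F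
  have hle : ∀ (a : ZeroAtInftyContinuousMap ℕ ℝ) (k : ℕ), |a k| ≤ ‖a‖ := by
    intro a k
    rw [← ZeroAtInftyContinuousMap.norm_toBCF_eq_norm]
    exact BoundedContinuousFunction.norm_coe_le_norm a.toBCF k
  have hsum : ∀ a : ZeroAtInftyContinuousMap ℕ ℝ, Summable (fun k => a k • v k) := by
    intro a
    rw [summable_iff_vanishing_norm]
    intro ε hε
    have h1 : Tendsto a cofinite (𝓝 0) := by
      rw [← cocompact_eq_cofinite]
      exact a.zero_at_infty'
    have h2 : ∀ᶠ k in cofinite, |a k| < ε / (C + 1) := by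
      have := (tendsto_zero_iff_abs_tendsto_zero _).1 h1
      exact this.eventually (gt_mem_nhds (by positivity))
    rw [eventually_cofinite] at h2
    refine ⟨h2.toFinset, fun t ht => ?_⟩
    have h3 := hb a (ε / (C + 1)) (by positivity) t (fun k hk => by
      by_contra hcon
      have : k ∈ h2.toFinset := by
        rw [Set.Finite.mem_toFinset]
        exact fun h' => hcon h'.le
      exact (Finset.disjoint_left.1 ht hk) this)
    refine lt_of_le_of_lt h3 ?_
    rw [div_mul_eq_mul_div, div_lt_iff₀ (by positivity)]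
    nlinarith
  let L : ZeroAtInftyContinuousMap ℕ ℝ →ₗ[ℝ] X :=
    { toFun := fun a => ∑' k, a k • v k
      map_add' := fun a b => by
        rw [← (hsum a).tsum_add (hsum b)]
        refine tsum_congr fun k => ?_
        rw [ZeroAtInftyContinuousMap.add_apply, add_smul]
      map_smul' := fun c a => by
        rw [RingHom.id_apply, ← (hsum a).tsum_const_smul c]
        refine tsum_congr fun k => ?_
        rw [ZeroAtInftyContinuousMap.smul_apply, smul_assoc] }
  have hLs : ∀ a, HasSum (fun k => a k • v k) (L a) := fun a => (hsum a).hasSum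
  have hLb : ∀ a, ‖L a‖ ≤ C * ‖a‖ := by
    intro a
    have h1 : Tendsto (fun F : Finset ℕ => ‖∑ k ∈ F, a k • v k‖) atTop (𝓝 ‖L a‖) := by
      have h2 : Tendsto (fun F : Finset ℕ => ∑ k ∈ F, a k • v k) atTop (𝓝 (L a)) := hLs a
      exact h2.norm
    refine le_of_tendsto' h1 fun F => ?_
    rw [mul_comm]
    exact hb a ‖a‖ (norm_nonneg _) F fun k _ => hle a k
  have hlow : ∀ a, ‖a‖ ≤ 2 / d * ‖L a‖ := by
    intro a
    have h1 : ∀ k, |a k| * d ≤ ‖L a‖ + d / 2 * ‖a‖ := by
      intro k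
      have h2 : Tendsto (fun F : Finset ℕ => |∑ j ∈ F, a j * ψ k (v j) - a k * ψ k (v k)|) atTop
          (𝓝 (|ψ k (L a) - a k * ψ k (v k)|)) := by
        have h3 : Tendsto (fun F : Finset ℕ => ∑ j ∈ F, a j * ψ k (v j)) atTop
            (𝓝 (ψ k (L a))) := by
          have h4 := (ψ k).hasSum (hLs a)
          simp only [map_smul, smul_eq_mul] at h4
          exact h4
        exact (h3.sub_const _).abs
      have h5 : |ψ k (L a) - a k * ψ k (v k)| ≤ d / 2 * ‖a‖ := by
        refine le_of_tendsto h2 ?_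
        filter_upwards [eventually_ge_atTop ({k} : Finset ℕ)] with F hF
        have hkF : k ∈ F := hF (Finset.mem_singleton_self k)
        rw [← Finset.add_sum_erase _ _ hkF, add_sub_cancel_left]
        refine (Finset.abs_sum_le_sum_abs _ _).trans ?_
        calc ∑ j ∈ F.erase k, |a j * ψ k (v j)| ≤ ∑ j ∈ F.erase k, ‖a‖ * |ψ k (v j)| := by
              refine Finset.sum_le_sum fun j _ => ?_
              rw [abs_mul]
              exact mul_le_mul_of_nonneg_right (hle a j) (abs_nonneg _)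
          _ = ‖a‖ * ∑ j ∈ F.erase k, |ψ k (v j)| := by rw [Finset.mul_sum]
          _ ≤ ‖a‖ * (d / 2) := by
              gcongr
              exact hoff k _ (Finset.notMem_erase k F)
          _ = _ := mul_comm _ _
      have h6 : |ψ k (L a)| ≤ ‖L a‖ := by
        rw [← Real.norm_eq_abs]
        refine ((ψ k).le_opNorm _).trans ?_
        have := mul_le_mul_of_nonneg_right (hψ k) (norm_nonneg (L a))
        rwa [one_mul] at this
      have h7 : |a k| * d ≤ |a k * ψ k (v k)| := by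
        rw [abs_mul]
        have := (hψv k).trans (le_abs_self _)
        gcongr
      have h8 : |a k * ψ k (v k)| ≤ |ψ k (L a)| + |ψ k (L a) - a k * ψ k (v k)| := by
        have := abs_sub_le (a k * ψ k (v k)) (ψ k (L a)) 0
        rw [sub_zero, sub_zero, abs_sub_comm (a k * ψ k (v k))] at this
        linarith
      linarith
    have h9 : ‖a‖ ≤ (‖L a‖ + d / 2 * ‖a‖) / d := by
      rw [← ZeroAtInftyContinuousMap.norm_toBCF_eq_norm,
        BoundedContinuousFunction.norm_le (by positivity)]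
      intro k
      rw [le_div_iff₀ hd]
      have := h1 k
      rw [← ZeroAtInftyContinuousMap.norm_toBCF_eq_norm] at this
      exact this
    rw [le_div_iff₀ hd] at h9
    rw [div_mul_eq_mul_div, le_div_iff₀ hd]
    linarith
  obtain ⟨T, hT⟩ : ∃ T : ZeroAtInftyContinuousMap ℕ ℝ →L[ℝ] X, ∀ a, T a = L a :=
    ⟨L.mkContinuous C hLb, fun a => rfl⟩
  have hanti : AntilipschitzWith (Real.toNNReal (2 / d)) T := by
    refine T.antilipschitz_of_bound fun a => ?_
    rw [Real.coe_toNNReal _ (by positivity), hT]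
    exact hlow a
  have hcl := hanti.isClosed_range T.uniformContinuous
  refine ⟨(T : ZeroAtInftyContinuousMap ℕ ℝ →ₗ[ℝ] X).range, ?_,
    ⟨(ContinuousLinearMap.equivRange hanti.injective hcl).symm⟩⟩
  exact hcl

theorem cauchy_of_bounded_signs {X : Type u} [NormedAddCommGroup X] [NormedSpace ℝ X]
    [CompleteSpace X] (hX : ¬ ContainsC0 X) (h : ℕ → X) (C : ℝ)
    (hC : ∀ (n : ℕ) (ε : ℕ → Bool),
      ‖∑ i ∈ Finset.range n, (if ε i then h i else - h i)‖ ≤ C) (ε : ℕ → Bool) :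
    CauchySeq (fun n => ∑ i ∈ Finset.range n, (if ε i then h i else - h i)) := by
  by_contra hcau
  apply hX
  have hC0 : 0 ≤ C := (norm_nonneg _).trans (hC 0 ε)
  obtain ⟨g, hg⟩ : ∃ g : ℕ → X, ∀ i, g i = if ε i then h i else - h i := ⟨_, fun _ => rfl⟩
  simp only [← hg] at hcau
  rw [Metric.cauchySeq_iff'] at hcau
  push Not at hcau
  obtain ⟨d, hd, hB⟩ := hcau
  choose B hB1 hB2 using hB
  have hfg : ∀ (f : X →L[ℝ] ℝ) i, |f (g i)| = |f (h i)| := by
    intro f i
    rw [hg]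
    split_ifs
    · rfl
    · rw [map_neg, abs_neg]
  obtain ⟨a, ha0, ha⟩ : ∃ a : ℕ → ℕ, a 0 = 0 ∧ ∀ k, a (k + 1) = B (a k) :=
    ⟨fun k => B^[k] 0, rfl, fun k => Function.iterate_succ_apply' B k 0⟩
  have hmono : ∀ k, a k ≤ a (k + 1) := fun k => by rw [ha]; exact hB1 _
  obtain ⟨u, hu⟩ : ∃ u : ℕ → X, ∀ k, u k = ∑ i ∈ Finset.Ico (a k) (a (k + 1)), g i :=
    ⟨_, fun _ => rfl⟩
  have hud : ∀ k, d ≤ ‖u k‖ := by
    intro k
    rw [hu, Finset.sum_Ico_eq_sub _ (hmono k), ← dist_eq_norm, ha]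
    exact hB2 _
  have huC : ∀ f : X →L[ℝ] ℝ, ‖f‖ ≤ 1 → ∀ F : Finset ℕ, ∑ k ∈ F, |f (u k)| ≤ C := by
    intro f hf F
    obtain ⟨K, hK⟩ := F.exists_nat_subset_range
    calc ∑ k ∈ F, |f (u k)| ≤ ∑ k ∈ Finset.range K, |f (u k)| :=
          Finset.sum_le_sum_of_subset_of_nonneg hK fun k _ _ => abs_nonneg _
      _ ≤ ∑ k ∈ Finset.range K, ∑ i ∈ Finset.Ico (a k) (a (k + 1)), |f (g i)| := by
          refine Finset.sum_le_sum fun k _ => ?_
          rw [hu, map_sum]
          exact Finset.abs_sum_le_sum_abs _ _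
      _ = ∑ i ∈ Finset.Ico (a 0) (a K), |f (g i)| := block_sum _ a hmono K
      _ = ∑ i ∈ Finset.range (a K), |f (h i)| := by
          rw [ha0, Finset.range_eq_Ico]
          exact Finset.sum_congr rfl fun i _ => hfg f i
      _ ≤ C := sign_bound hC f hf _
  have hf : ∀ k, ∃ f : X →L[ℝ] ℝ, ‖f‖ ≤ 1 ∧ f (u k) = ‖u k‖ := fun k =>
    exists_dual_vector'' ℝ (u k)
  choose f hf1 hf2 using hf
  obtain ⟨M, hM⟩ := exists_nat_ge (C / (d / 2))
  have hM' : C ≤ M * (d / 2) := by rwa [div_le_iff₀ (by positivity)] at hM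
  obtain ⟨φ, hφ, hφ2⟩ := rosenthal (d / 2) (by positivity) M (fun k j => |f k (u j)|)
    (fun _ _ => abs_nonneg _) (fun k F => (huC (f k) (hf1 k) F).trans hM')
  refine c0_of_seq (v := fun k => u (φ k)) (ψ := fun k => f (φ k)) hd hC0 ?_
    (fun k => hf1 _) (fun k => by rw [hf2]; exact hud _) hφ2
  intro f hf F
  have := huC f hf (F.image φ)
  rwa [Finset.sum_image (fun a _ b _ hab => hφ hab)] at this

theorem smooth_homog {X : Type u} [NormedAddCommGroup X] [NormedSpace ℝ X] (p : Seminorm ℝ X)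
    {K : ℝ} (hK : 0 < K) (h : ∀ x h : X, p x = 1 → p (x + h) + p (x - h) ≤ 2 + K * p h ^ 2)
    (x k : X) : (p (x + k) + p (x - k)) * p x ≤ 2 * p x ^ 2 + K * p k ^ 2 := by
  rcases (apply_nonneg p x).eq_or_lt with h0 | h0
  · rw [← h0]
    have : 0 ≤ K * p k ^ 2 := by positivity
    nlinarith
  · have hn : ‖(p x)⁻¹‖ = (p x)⁻¹ := by
      rw [Real.norm_eq_abs, abs_of_pos (inv_pos.2 h0)]
    have h1 : p ((p x)⁻¹ • x) = 1 := by
      rw [map_smul_eq_mul, hn, inv_mul_cancel₀ h0.ne']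
    have h2 := h ((p x)⁻¹ • x) ((p x)⁻¹ • k) h1
    rw [← smul_add, ← smul_sub, map_smul_eq_mul, map_smul_eq_mul, map_smul_eq_mul, hn] at h2
    have h3 := mul_le_mul_of_nonneg_left h2 (by positivity : (0:ℝ) ≤ p x ^ 2)
    have e1 : p x ^ 2 * ((p x)⁻¹ * p (x + k) + (p x)⁻¹ * p (x - k)) =
        (p (x + k) + p (x - k)) * p x := by
      field_simp
    have e2 : p x ^ 2 * (2 + K * ((p x)⁻¹ * p k) ^ 2) = 2 * p x ^ 2 + K * p k ^ 2 := by
      field_simp
    rw [e1, e2] at h3
    exact h3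

theorem smooth_of_finitelyRepresentable {X : Type u} [NormedAddCommGroup X] [NormedSpace ℝ X]
    (hX : SmoothRenormable X) {Y : Type v} [NormedAddCommGroup Y] [NormedSpace ℝ Y]
    (hY : FinitelyRepresentable Y X) : SmoothRenormable Y := by
  classical
  obtain ⟨p, ⟨a, b, ha, hb, hab⟩, K, hK, hsm⟩ := hX
  have hsm' := smooth_homog p hK hsm
  have hT : ∀ s : Finset Y, ∃ T : Submodule.span ℝ (s : Set Y) →ₗ[ℝ] X,
      ∀ y, ‖y‖ ≤ ‖T y‖ ∧ ‖T y‖ ≤ (1 + 1) * ‖y‖ := fun s =>
    hY _ (FiniteDimensional.span_finset ℝ s) 1 one_pos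
  choose T hT using hT
  let f : Y → Finset Y → ℝ := fun y s =>
    if h : y ∈ Submodule.span ℝ (s : Set Y) then p (T s ⟨y, h⟩) else 0
  let U : Ultrafilter (Finset Y) := Ultrafilter.of atTop
  have hU : (U : Filter (Finset Y)) ≤ atTop := Ultrafilter.of_le _
  have hmem : ∀ y : Y, ∀ᶠ s : Finset Y in (U : Filter (Finset Y)), y ∈ Submodule.span ℝ (s : Set Y) := by
    intro y
    refine hU ?_
    filter_upwards [eventually_ge_atTop ({y} : Finset Y)] with s hs
    exact Submodule.subset_span (hs (Finset.mem_singleton_self y))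
  have hfb : ∀ y s, f y s ∈ Set.Icc 0 (b * (2 * ‖y‖)) := by
    intro y s
    by_cases h : y ∈ Submodule.span ℝ (s : Set Y)
    · have e : f y s = p (T s ⟨y, h⟩) := dif_pos h
      rw [e]
      refine ⟨apply_nonneg _ _, (hab _).2.trans ?_⟩
      have := (hT s ⟨y, h⟩).2
      have h2 : ‖(⟨y, h⟩ : Submodule.span ℝ (s : Set Y))‖ = ‖y‖ := rfl
      rw [h2] at this
      apply mul_le_mul_of_nonneg_left _ hb.le
      linarith
    · have e : f y s = 0 := dif_neg h
      rw [e]
      exact ⟨le_rfl, by positivity⟩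
  have hlim : ∀ y, ∃ L : ℝ, Tendsto (f y) (U : Filter (Finset Y)) (𝓝 L) := by
    intro y
    obtain ⟨L, _, hL⟩ := isCompact_Icc.ultrafilter_le_nhds (U.map (f y))
      (by
        rw [le_principal_iff]
        show f y ⁻¹' Set.Icc 0 (b * (2 * ‖y‖)) ∈ (U : Filter (Finset Y))
        exact Filter.univ_mem' (hfb y))
    exact ⟨L, hL⟩
  choose q hq using hlim
  have hadd : ∀ x y, q (x + y) ≤ q x + q y := by
    intro x y
    refine le_of_tendsto_of_tendsto (hq (x + y)) ((hq x).add (hq y)) ?_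
    filter_upwards [hmem x, hmem y] with s hx hy
    have hxy := Submodule.add_mem _ hx hy
    show f (x + y) s ≤ f x s + f y s
    rw [show f (x + y) s = p (T s ⟨x + y, hxy⟩) from dif_pos hxy,
      show f x s = p (T s ⟨x, hx⟩) from dif_pos hx, show f y s = p (T s ⟨y, hy⟩) from dif_pos hy]
    have : (⟨x + y, hxy⟩ : Submodule.span ℝ (s : Set Y)) = ⟨x, hx⟩ + ⟨y, hy⟩ := rfl
    rw [this, map_add]
    exact map_add_le_add p _ _
  have hsmul : ∀ (c : ℝ) (x : Y), q (c • x) = ‖c‖ * q x := by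
    intro c x
    refine tendsto_nhds_unique (hq (c • x)) ?_
    refine Tendsto.congr' ?_ ((hq x).const_mul ‖c‖)
    filter_upwards [hmem x] with s hx
    have hcx := Submodule.smul_mem _ c hx
    rw [show f (c • x) s = p (T s ⟨c • x, hcx⟩) from dif_pos hcx,
      show f x s = p (T s ⟨x, hx⟩) from dif_pos hx]
    have : (⟨c • x, hcx⟩ : Submodule.span ℝ (s : Set Y)) = c • ⟨x, hx⟩ := rfl
    rw [this, map_smul, map_smul_eq_mul]
  refine ⟨Seminorm.of q hadd hsmul, ⟨a, b * 2, ha, by positivity, ?_⟩, K, hK, ?_⟩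
  · intro x
    constructor
    · refine ge_of_tendsto (hq x) ?_
      filter_upwards [hmem x] with s hx
      rw [show f x s = p (T s ⟨x, hx⟩) from dif_pos hx]
      refine le_trans ?_ (hab _).1
      exact mul_le_mul_of_nonneg_left (hT s ⟨x, hx⟩).1 ha.le
    · refine le_of_tendsto (hq x) (Filter.Eventually.of_forall fun s => ?_)
      rw [mul_assoc]
      exact (hfb x s).2
  · intro x h hx1
    have hx1' : q x = 1 := hx1
    show q (x + h) + q (x - h) ≤ 2 + K * q h ^ 2
    have key : (q (x + h) + q (x - h)) * q x ≤ 2 * q x ^ 2 + K * q h ^ 2 := by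
      refine le_of_tendsto_of_tendsto (((hq (x + h)).add (hq (x - h))).mul (hq x))
        ((((hq x).pow 2).const_mul 2).add (((hq h).pow 2).const_mul K)) ?_
      filter_upwards [hmem x, hmem h] with s hx hh
      have hxh := Submodule.add_mem _ hx hh
      have hxh' := Submodule.sub_mem _ hx hh
      show (f (x + h) s + f (x - h) s) * f x s ≤ 2 * f x s ^ 2 + K * f h s ^ 2
      rw [show f (x + h) s = p (T s ⟨x + h, hxh⟩) from dif_pos hxh,
        show f (x - h) s = p (T s ⟨x - h, hxh'⟩) from dif_pos hxh',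
        show f x s = p (T s ⟨x, hx⟩) from dif_pos hx, show f h s = p (T s ⟨h, hh⟩) from dif_pos hh]
      have e1 : (⟨x + h, hxh⟩ : Submodule.span ℝ (s : Set Y)) = ⟨x, hx⟩ + ⟨h, hh⟩ := rfl
      have e2 : (⟨x - h, hxh'⟩ : Submodule.span ℝ (s : Set Y)) = ⟨x, hx⟩ - ⟨h, hh⟩ := rfl
      rw [e1, e2, map_add, map_sub]
      exact hsm' _ _
    rw [hx1'] at key
    linarith

theorem sf_aux1 {X : Type u} [NormedAddCommGroup X] [NormedSpace ℝ X]
    (g : X → ℝ) (hconv : ConvexOn ℝ Set.univ g)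
    (T : ℝ) (w : X) (hT : ∀ k, ‖k‖ ≤ 1 → om g w k ≤ T * ‖k‖ ^ 2)
    (a b : ℝ) (hb : 0 ≤ b) (hba : b ≤ a) (hab : a + b = 1) (d : X) (hd : ‖d‖ ≤ 1) :
    a * g (w + b • d) + b * g (w - a • d) ≤ g w + |T| * ‖d‖ ^ 2 := by
  have ha : 0 < a := by linarith
  have ha1 : a ≤ 1 := by linarith
  have h1 : g (w + b • d) ≤ (b / a) * g (w + a • d) + (1 - b / a) * g w := by
    have hc := hconv.2 (Set.mem_univ (w + a • d)) (Set.mem_univ w)
      (show 0 ≤ b / a by positivity) (show 0 ≤ 1 - b / a by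
        rw [sub_nonneg, div_le_one ha]; exact hba) (by ring)
    have e : (b / a) • (w + a • d) + (1 - b / a) • w = w + b • d := by
      rw [smul_add, smul_smul, div_mul_cancel₀ _ ha.ne', sub_smul, one_smul]
      abel
    rw [e] at hc
    simpa [smul_eq_mul] using hc
  have h2 : a * g (w + b • d) ≤ b * g (w + a • d) + (a - b) * g w := by
    have := mul_le_mul_of_nonneg_left h1 ha.le
    have e : a * ((b / a) * g (w + a • d) + (1 - b / a) * g w) =
        b * g (w + a • d) + (a - b) * g w := by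
      field_simp
    linarith
  have hn : ‖a • d‖ = a * ‖d‖ := by rw [norm_smul, Real.norm_of_nonneg ha.le]
  have hn1 : ‖a • d‖ ≤ ‖d‖ := by
    rw [hn]; exact mul_le_of_le_one_left (norm_nonneg _) ha1
  have h3 := hT (a • d) (hn1.trans hd)
  have h4 : T * ‖a • d‖ ^ 2 ≤ |T| * ‖d‖ ^ 2 := by
    calc T * ‖a • d‖ ^ 2 ≤ |T| * ‖a • d‖ ^ 2 :=
          mul_le_mul_of_nonneg_right (le_abs_self T) (by positivity)
      _ ≤ |T| * ‖d‖ ^ 2 := by
          apply mul_le_mul_of_nonneg_left _ (abs_nonneg T)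
          exact pow_le_pow_left₀ (norm_nonneg _) hn1 2
  unfold om at h3
  have h5 : b * (g (w + a • d) + g (w - a • d)) ≤ b * (2 * g w + |T| * ‖d‖ ^ 2) :=
    mul_le_mul_of_nonneg_left (by linarith) hb
  have h6 : b * (|T| * ‖d‖ ^ 2) ≤ |T| * ‖d‖ ^ 2 :=
    mul_le_of_le_one_left (by positivity) (by linarith)
  have h7 : a - b + 2 * b = 1 := by linarith
  have h8 : (a - b + 2 * b) * g w = g w := by rw [h7, one_mul]
  have h9 : b * (2 * g w + |T| * ‖d‖ ^ 2) = 2 * b * g w + b * (|T| * ‖d‖ ^ 2) := by ring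
  have h10 : b * (g (w + a • d) + g (w - a • d)) = b * g (w + a • d) + b * g (w - a • d) := by ring
  have h11 : (a - b + 2 * b) * g w = (a - b) * g w + 2 * b * g w := by ring
  linarith

theorem sf_aux2 {X : Type u} [NormedAddCommGroup X] [NormedSpace ℝ X]
    (g : X → ℝ) (hconv : ConvexOn ℝ Set.univ g)
    (T : ℝ) (w : X) (hT : ∀ k, ‖k‖ ≤ 1 → om g w k ≤ T * ‖k‖ ^ 2)
    (a b : ℝ) (ha : 0 ≤ a) (hb : 0 ≤ b) (hab : a + b = 1) (d : X) (hd : ‖d‖ ≤ 1) :
    a * g (w + b • d) + b * g (w - a • d) ≤ g w + |T| * ‖d‖ ^ 2 := by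
  rcases le_total b a with h | h
  · exact sf_aux1 g hconv T w hT a b hb h hab d hd
  · have := sf_aux1 g hconv T w hT b a ha h (by linarith) (-d) (by rwa [norm_neg])
    rw [smul_neg, smul_neg, norm_neg, sub_neg_eq_add, ← sub_eq_add_neg] at this
    linarith

set_option maxHeartbeats 1000000 in
theorem smoothRenormable_of_function {X : Type u} [NormedAddCommGroup X] [NormedSpace ℝ X]
    (g : X → ℝ) (hconv : ConvexOn ℝ Set.univ g) (hcont : Continuous g) (h0 : g 0 = 0)
    (heven : ∀ x, g (-x) = g x) (R : ℝ) (hbdd : ∀ x, g x ≤ 1 / 2 → ‖x‖ ≤ R)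
    (T : ℝ) (hT : ∀ z, g z ≤ 1 / 2 → ∀ k, ‖k‖ ≤ 1 → om g z k ≤ T * ‖k‖ ^ 2) :
    SmoothRenormable X := by
  set B : Set X := {x | g x ≤ 1 / 2} with hB
  set Q : ℝ := max R 1 with hQ
  have hQ1 : 1 ≤ Q := le_max_right _ _
  have hQpos : 0 < Q := by linarith
  have hBclosed : IsClosed B := isClosed_le hcont continuous_const
  have hBconv : Convex ℝ B := by
    have := hconv.convex_le (1/2)
    simpa [hB] using this
  have hBopen : IsOpen {x | g x < 1 / 2} := isOpen_lt hcont continuous_const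
  have hB0 : B ∈ 𝓝 (0 : X) := by
    apply Filter.mem_of_superset (hBopen.mem_nhds (show g 0 < 1 / 2 by rw [h0]; norm_num))
    intro x hx
    have hx' : g x < 1 / 2 := hx
    exact hx'.le
  have hBabs : Absorbent ℝ B := absorbent_nhds_zero hB0
  have hscale : ∀ (t : ℝ) (x : X), 0 ≤ t → t ≤ 1 → g (t • x) ≤ t * g x := by
    intro t x ht0 ht1
    have hc := hconv.2 (Set.mem_univ x) (Set.mem_univ (0 : X)) ht0 (show 0 ≤ 1 - t by linarith)
      (by ring)
    simpa [h0, smul_eq_mul] using hc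
  have hBbal : Balanced ℝ B := by
    rw [balanced_iff_smul_mem]
    intro a ha x hx
    have ha' : |a| ≤ 1 := ha
    have h1 : g (a • x) = g (|a| • x) := by
      rcases abs_choice a with h | h
      · rw [h]
      · rw [h, neg_smul, heven]
    have hx' : g x ≤ 1 / 2 := hx
    show g (a • x) ≤ 1 / 2
    rw [h1]
    have h2 := hscale |a| x (abs_nonneg a) ha'
    have h3 : |a| * g x ≤ |a| * (1/2) := mul_le_mul_of_nonneg_left hx' (abs_nonneg a)
    linarith
  set p : Seminorm ℝ X := gaugeSeminorm hBbal hBconv hBabs with hp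
  have hpdef : ∀ x, p x = gauge B x := fun x => rfl
  obtain ⟨r, hr, hrB⟩ := Metric.mem_nhds_iff.1 hB0
  have hub : ∀ x, p x ≤ r⁻¹ * ‖x‖ := by
    intro x
    have := mul_gauge_le_norm (x := x) hrB
    rw [hpdef, inv_mul_eq_div, le_div_iff₀ hr, mul_comm]
    exact this
  have hlb : ∀ x, ‖x‖ ≤ Q * p x := by
    intro x
    have hsub : B ⊆ Metric.closedBall 0 Q := by
      intro y hy
      rw [mem_closedBall_zero_iff]
      exact (hbdd y hy).trans (le_max_left _ _)
    have := le_gauge_of_subset_closedBall (x := x) hBabs hQpos.le hsub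
    rw [hpdef]
    rw [div_le_iff₀ hQpos] at this
    linarith
  have hone : ∀ x, p x = 1 → g x = 1 / 2 := by
    intro x hx
    apply le_antisymm
    · have h1 : gauge B x ≤ 1 := hx.le
      rw [gauge_le_one_iff_mem_closure hBconv hB0, hBclosed.closure_eq] at h1
      exact h1
    · by_contra hcon
      push Not at hcon
      have h1 : x ∈ interior B := by
        rw [mem_interior]
        exact ⟨{x | g x < 1 / 2}, fun y hy => (show g y < 1 / 2 from hy).le, hBopen, hcon⟩
      rw [← gauge_lt_one_iff_mem_interior hBconv hB0] at h1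
      rw [hpdef] at hx
      linarith
  refine ⟨p, ⟨Q⁻¹, r⁻¹, by positivity, by positivity, fun x => ⟨?_, hub x⟩⟩,
    864 * |T| * Q ^ 2 + 24 * Q + 1, by positivity, ?_⟩
  · rw [inv_mul_le_iff₀ hQpos]; exact hlb x
  intro z h hz
  have hη0 : 0 ≤ p h := apply_nonneg p h
  by_cases hsmall : p h ≤ 1 / (12 * Q)
  swap
  · push Not at hsmall
    have h1 : p (z + h) ≤ 1 + p h := by rw [← hz]; exact map_add_le_add p z h
    have h2 : p (z - h) ≤ 1 + p h := by rw [← hz]; exact map_sub_le_add p z h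
    have h3 : 1 ≤ 12 * Q * p h := by
      rw [div_lt_iff₀ (by positivity)] at hsmall
      linarith
    have h4 : 2 * p h ≤ 24 * Q * p h ^ 2 := by nlinarith
    have h5 : 0 ≤ (864 * |T| * Q ^ 2 + 1) * p h ^ 2 := by positivity
    have h6 : (864 * |T| * Q ^ 2 + 24 * Q + 1) * p h ^ 2 =
        24 * Q * p h ^ 2 + (864 * |T| * Q ^ 2 + 1) * p h ^ 2 := by ring
    rw [h6]
    linarith
  · have hη12 : p h ≤ 1 / 12 := by
      refine hsmall.trans ?_
      apply one_div_le_one_div_of_le (by norm_num)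
      linarith
    set A := p (z + h) with hA
    set C := p (z - h) with hC
    have hA1 : A ≤ 1 + p h := by rw [← hz]; exact map_add_le_add p z h
    have hC1 : C ≤ 1 + p h := by rw [← hz]; exact map_sub_le_add p z h
    have hA2 : 1 - p h ≤ A := by
      have := map_sub_le_add p (z + h) h
      rw [add_sub_cancel_right, hz] at this
      linarith
    have hC2 : 1 - p h ≤ C := by
      have := map_add_le_add p (z - h) h
      rw [sub_add_cancel, hz] at this
      linarith
    have hApos : 0 < A := by linarith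
    have hCpos : 0 < C := by linarith
    by_cases hAC : A + C ≤ 2
    · have h5 : 0 ≤ (864 * |T| * Q ^ 2 + 24 * Q + 1) * p h ^ 2 := by positivity
      linarith
    push Not at hAC
    set u := A⁻¹ • (z + h) with hu
    set v := C⁻¹ • (z - h) with hv
    have hpu : p u = 1 := by
      rw [hu, map_smul_eq_mul, Real.norm_of_nonneg (by positivity)]
      exact inv_mul_cancel₀ hApos.ne'
    have hpv : p v = 1 := by
      rw [hv, map_smul_eq_mul, Real.norm_of_nonneg (by positivity)]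
      exact inv_mul_cancel₀ hCpos.ne'
    have hgu := hone u hpu
    have hgv := hone v hpv
    have hgz := hone z hz
    set s := (A + C) / 2 with hs
    have hs1 : 1 < s := by rw [hs]; linarith
    have hspos : 0 < s := by linarith
    set w := s⁻¹ • z with hw
    have hgw : g w ≤ s⁻¹ * (1/2) := by
      have := hscale s⁻¹ z (by positivity) (inv_le_one_of_one_le₀ hs1.le)
      rw [hgz] at this
      exact this
    have hsinv : s⁻¹ ≤ 1 := inv_le_one_of_one_le₀ hs1.le
    have hwB : g w ≤ 1 / 2 := by nlinarith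
    have hAC0 : A + C ≠ 0 := by linarith
    set a := A / (A + C) with ha
    set c := C / (A + C) with hc
    have hac : a + c = 1 := by rw [ha, hc, ← add_div, div_self hAC0]
    have ha0 : 0 ≤ a := by positivity
    have hc0 : 0 ≤ c := by positivity
    have hau : a • u = (A + C)⁻¹ • (z + h) := by
      rw [hu, smul_smul, ha]
      congr 1
      field_simp
    have hcv : c • v = (A + C)⁻¹ • (z - h) := by
      rw [hv, smul_smul, hc]
      congr 1
      field_simp
    have hwe : w = a • u + c • v := by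
      rw [hau, hcv, ← smul_add, hw, hs]
      have : z + h + (z - h) = (2:ℝ) • z := by rw [two_smul]; abel
      rw [this, smul_smul]
      congr 1
      field_simp
    have hwu : w + c • (u - v) = u := by
      rw [hwe, smul_sub]
      have : a • u + c • v + (c • u - c • v) = (a + c) • u := by rw [add_smul]; abel
      rw [this, hac, one_smul]
    have hwv : w - a • (u - v) = v := by
      rw [hwe, smul_sub]
      have : a • u + c • v - (a • u - a • v) = (a + c) • v := by rw [add_smul]; abel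
      rw [this, hac, one_smul]
    have hzQ : ‖z‖ ≤ Q := by have := hlb z; rw [hz, mul_one] at this; exact this
    have hhQ : ‖h‖ ≤ Q * p h := hlb h
    have hAinv : A⁻¹ ≤ 2 := by
      rw [inv_le_comm₀ hApos (by norm_num)]
      linarith
    have hCinv : C⁻¹ ≤ 2 := by
      rw [inv_le_comm₀ hCpos (by norm_num)]
      linarith
    have huv : ‖u - v‖ ≤ 12 * Q * p h := by
      have e : u - v = (A⁻¹ - C⁻¹) • z + (A⁻¹ + C⁻¹) • h := by
        rw [hu, hv, smul_add, smul_sub, sub_smul, add_smul]; abel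
      have h1 : |A⁻¹ - C⁻¹| ≤ 8 * p h := by
        have e2 : A⁻¹ - C⁻¹ = (C - A) * (A⁻¹ * C⁻¹) := by field_simp
        rw [e2, abs_mul, abs_of_pos (show 0 < A⁻¹ * C⁻¹ by positivity)]
        have h2 : |C - A| ≤ 2 * p h := by rw [abs_le]; constructor <;> linarith
        have h3 : A⁻¹ * C⁻¹ ≤ 2 * 2 := mul_le_mul hAinv hCinv (by positivity) (by norm_num)
        calc |C - A| * (A⁻¹ * C⁻¹) ≤ (2 * p h) * (2 * 2) :=
              mul_le_mul h2 h3 (by positivity) (by positivity)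
          _ = 8 * p h := by ring
      have h4 : |A⁻¹ + C⁻¹| ≤ 4 := by
        rw [abs_of_pos (by positivity)]; linarith
      rw [e]
      refine (norm_add_le _ _).trans ?_
      rw [norm_smul, norm_smul, Real.norm_eq_abs, Real.norm_eq_abs]
      have h5 : |A⁻¹ - C⁻¹| * ‖z‖ ≤ (8 * p h) * Q :=
        mul_le_mul h1 hzQ (norm_nonneg _) (by positivity)
      have h6 : |A⁻¹ + C⁻¹| * ‖h‖ ≤ 4 * (Q * p h) :=
        mul_le_mul h4 hhQ (norm_nonneg _) (by norm_num)
      linarith
    have huv1 : ‖u - v‖ ≤ 1 := by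
      refine huv.trans ?_
      rw [le_div_iff₀ (by positivity)] at hsmall
      linarith
    have hkey := sf_aux2 g hconv T w (hT w hwB) a c ha0 hc0 hac (u - v) huv1
    rw [hwu, hwv, hgu, hgv] at hkey
    have hk2 : 1/2 ≤ s⁻¹ * (1/2) + |T| * ‖u - v‖ ^ 2 := by
      have : a * (1/2) + c * (1/2) = 1/2 := by rw [← add_mul, hac, one_mul]
      linarith
    have hk3 : |T| * ‖u - v‖ ^ 2 ≤ |T| * (12 * Q * p h) ^ 2 := by
      apply mul_le_mul_of_nonneg_left _ (abs_nonneg T)
      exact pow_le_pow_left₀ (norm_nonneg _) huv 2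
    have hk4 : s * (1/2) ≤ 1/2 + s * (|T| * (12 * Q * p h) ^ 2) := by
      have h1 : 1/2 ≤ s⁻¹ * (1/2) + |T| * (12 * Q * p h) ^ 2 := by linarith
      have h2 := mul_le_mul_of_nonneg_left h1 hspos.le
      rw [mul_add, ← mul_assoc s s⁻¹, mul_inv_cancel₀ hspos.ne', one_mul] at h2
      exact h2
    have hs2 : s ≤ 3/2 := by rw [hs]; linarith
    have hk5 : s * (|T| * (12 * Q * p h) ^ 2) ≤ 3/2 * (|T| * (12 * Q * p h) ^ 2) :=
      mul_le_mul_of_nonneg_right hs2 (by positivity)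
    have hk6 : A + C ≤ 2 + 864 * |T| * Q ^ 2 * p h ^ 2 := by
      have e : (12 * Q * p h) ^ 2 = 144 * (Q ^ 2 * p h ^ 2) := by ring
      rw [e] at hk5 hk4
      have e2 : A + C = 2 * s := by rw [hs]; ring
      rw [e2]
      have e3 : |T| * (144 * (Q ^ 2 * p h ^ 2)) = 144 * (|T| * Q ^ 2 * p h ^ 2) := by ring
      rw [e3] at hk5 hk4
      have e4 : 864 * |T| * Q ^ 2 * p h ^ 2 = 864 * (|T| * Q ^ 2 * p h ^ 2) := by ring
      rw [e4]
      linarith
    have h5 : 0 ≤ (24 * Q + 1) * p h ^ 2 := by positivity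
    have h6 : (864 * |T| * Q ^ 2 + 24 * Q + 1) * p h ^ 2 =
        864 * |T| * Q ^ 2 * p h ^ 2 + (24 * Q + 1) * p h ^ 2 := by ring
    rw [h6]
    linarith

theorem tg_cont {X : Type u} [NormedAddCommGroup X] [NormedSpace ℝ X]
    (p : Seminorm ℝ X) (b : ℝ) (hb : 0 < b) (hp : ∀ x : X, p x ≤ b * ‖x‖) : Continuous p := by
  have : LipschitzWith ⟨b, hb.le⟩ p := by
    apply LipschitzWith.of_dist_le_mul
    intro x y
    rw [Real.dist_eq, dist_eq_norm]
    exact (abs_sub_map_le_sub p x y).trans (hp (x - y))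
  exact this.continuous

theorem tg_convF {X : Type u} [NormedAddCommGroup X] [NormedSpace ℝ X]
    (p : Seminorm ℝ X) (x y : X) (a b : ℝ) (ha : 0 ≤ a) (hb : 0 ≤ b) (hab : a + b = 1) :
    p (a • x + b • y) ^ 2 ≤ a * p x ^ 2 + b * p y ^ 2 := by
  have h1 : p (a • x + b • y) ≤ a * p x + b * p y := by
    refine (map_add_le_add p _ _).trans ?_
    rw [map_smul_eq_mul, map_smul_eq_mul, Real.norm_eq_abs, Real.norm_eq_abs, abs_of_nonneg ha,
      abs_of_nonneg hb]
  have h0 := apply_nonneg p (a • x + b • y)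
  have h2 : p (a • x + b • y) ^ 2 ≤ (a * p x + b * p y) ^ 2 := by gcongr
  refine h2.trans ?_
  have hb' : b = 1 - a := by linarith
  subst hb'
  nlinarith [mul_nonneg (mul_nonneg ha hb) (sq_nonneg (p x - p y))]

theorem tg_conv1 {X : Type u} [NormedAddCommGroup X] [NormedSpace ℝ X]
    (p : Seminorm ℝ X) (s : ℝ) (x y : X) (a b : ℝ) (ha : 0 ≤ a) (hb : 0 ≤ b) (hab : a + b = 1) :
    (max (p (a • x + b • y) ^ 2 - s) 0) ^ 2
      ≤ a * (max (p x ^ 2 - s) 0) ^ 2 + b * (max (p y ^ 2 - s) 0) ^ 2 := by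
  have h1 := tg_convF p x y a b ha hb hab
  have hM : p x ^ 2 - s ≤ max (p x ^ 2 - s) 0 := le_max_left _ _
  have hN : p y ^ 2 - s ≤ max (p y ^ 2 - s) 0 := le_max_left _ _
  have hM0 : 0 ≤ max (p x ^ 2 - s) 0 := le_max_right _ _
  have hN0 : 0 ≤ max (p y ^ 2 - s) 0 := le_max_right _ _
  have h2 : max (p (a • x + b • y) ^ 2 - s) 0 ≤ a * max (p x ^ 2 - s) 0 + b * max (p y ^ 2 - s) 0 := by
    apply max_le
    · have e : s = a * s + b * s := by rw [← add_mul, hab, one_mul]
      have := mul_le_mul_of_nonneg_left hM ha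
      have := mul_le_mul_of_nonneg_left hN hb
      nlinarith
    · positivity
  have h0 : 0 ≤ max (p (a • x + b • y) ^ 2 - s) 0 := le_max_right _ _
  have h3 : (max (p (a • x + b • y) ^ 2 - s) 0) ^ 2
      ≤ (a * max (p x ^ 2 - s) 0 + b * max (p y ^ 2 - s) 0) ^ 2 := by gcongr
  refine h3.trans ?_
  have hb' : b = 1 - a := by linarith
  subst hb'
  nlinarith [mul_nonneg (mul_nonneg ha hb) (sq_nonneg (max (p x ^ 2 - s) 0 - max (p y ^ 2 - s) 0))]

theorem tg_scalar (s u v : ℝ) :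
    (max (v - s) 0) ^ 2 ≤ (max (u - s) 0) ^ 2 + 2 * max (u - s) 0 * (v - u) + (v - u) ^ 2 := by
  rcases le_total s u with h | h
  · rw [max_eq_left (by linarith : (0:ℝ) ≤ u - s)]
    have h1 : (max (v - s) 0) ^ 2 ≤ (v - s) ^ 2 := by
      rcases le_total s v with h' | h'
      · rw [max_eq_left (by linarith)]
      · rw [max_eq_right (by linarith)]; nlinarith [sq_nonneg (v - s)]
    nlinarith
  · rw [max_eq_right (by linarith : u - s ≤ 0)]
    have h1 : (max (v - s) 0) ^ 2 ≤ (v - u) ^ 2 := by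
      rcases le_total s v with h' | h'
      · rw [max_eq_left (by linarith)]
        have : v - s ≤ v - u := by linarith
        nlinarith
      · rw [max_eq_right (by linarith)]; nlinarith [sq_nonneg (v - u)]
    nlinarith

theorem tg_diff {X : Type u} [NormedAddCommGroup X] [NormedSpace ℝ X]
    (p : Seminorm ℝ X) (b : ℝ) (hb : 0 < b) (hp : ∀ x : X, p x ≤ b * ‖x‖) (x k : X) (L : ℝ)
    (hL : p x ^ 2 < L) (hk : ‖k‖ ≤ 1) :
    (p (x + k) ^ 2 - p x ^ 2) ^ 2 ≤ (b * (2 * Real.sqrt L + b)) ^ 2 * ‖k‖ ^ 2 := by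
  have hx0 := apply_nonneg p x
  have hxk0 := apply_nonneg p (x + k)
  have hk0 := apply_nonneg p k
  have hn0 := norm_nonneg k
  have h1 : |p (x + k) - p x| ≤ b * ‖k‖ := by
    refine (abs_sub_map_le_sub p (x + k) x).trans ?_
    rw [add_sub_cancel_left]; exact hp k
  have h2 : p x ≤ Real.sqrt L := Real.le_sqrt_of_sq_le hL.le
  have h3 : p (x + k) ≤ p x + b * ‖k‖ := by
    have := (abs_le.1 h1).2
    linarith
  have h4 : b * ‖k‖ ≤ b := mul_le_of_le_one_right hb.le hk
  have h5 : |p (x + k) ^ 2 - p x ^ 2| ≤ (b * (2 * Real.sqrt L + b)) * ‖k‖ := by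
    have e : p (x + k) ^ 2 - p x ^ 2 = (p (x + k) - p x) * (p (x + k) + p x) := by ring
    rw [e, abs_mul, abs_of_nonneg (by linarith : 0 ≤ p (x + k) + p x)]
    calc |p (x + k) - p x| * (p (x + k) + p x) ≤ (b * ‖k‖) * (2 * Real.sqrt L + b) := by
          apply mul_le_mul h1 _ (by linarith) (by positivity)
          linarith
      _ = _ := by ring
  calc (p (x + k) ^ 2 - p x ^ 2) ^ 2 = |p (x + k) ^ 2 - p x ^ 2| ^ 2 := (sq_abs _).symm
    _ ≤ ((b * (2 * Real.sqrt L + b)) * ‖k‖) ^ 2 := by gcongr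
    _ = _ := by ring

theorem tg_one {X : Type u} [NormedAddCommGroup X] [NormedSpace ℝ X]
    (p : Seminorm ℝ X) (b : ℝ) (hb : 0 < b) (hp : ∀ x : X, p x ≤ b * ‖x‖) (x k : X) (s L T : ℝ)
    (hsL : s < L) (hL : p x ^ 2 < L) (hk : ‖k‖ ≤ 1)
    (hT : om (fun x => p x ^ 2) x k ≤ T * ‖k‖ ^ 2) :
    (max (p (x + k) ^ 2 - s) 0) ^ 2 + (max (p (x - k) ^ 2 - s) 0) ^ 2 - 2 * (max (p x ^ 2 - s) 0) ^ 2
      ≤ (2 * (L - s) * |T| + 2 * (b * (2 * Real.sqrt L + b)) ^ 2) * ‖k‖ ^ 2 := by
  have h1 := tg_scalar s (p x ^ 2) (p (x + k) ^ 2)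
  have h2 := tg_scalar s (p x ^ 2) (p (x - k) ^ 2)
  have h3 := tg_diff p b hb hp x k L hL hk
  have h4 := tg_diff p b hb hp x (-k) L hL (by rwa [norm_neg])
  rw [norm_neg, ← sub_eq_add_neg] at h4
  unfold om at hT
  simp only at hT
  have hm0 : 0 ≤ max (p x ^ 2 - s) 0 := le_max_right _ _
  have hm1 : max (p x ^ 2 - s) 0 ≤ L - s := max_le (by linarith) (by linarith)
  have hT' : p (x + k) ^ 2 + p (x - k) ^ 2 - 2 * p x ^ 2 ≤ |T| * ‖k‖ ^ 2 :=
    hT.trans (mul_le_mul_of_nonneg_right (le_abs_self T) (sq_nonneg _))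
  have h5 : max (p x ^ 2 - s) 0 * (p (x + k) ^ 2 + p (x - k) ^ 2 - 2 * p x ^ 2)
      ≤ (L - s) * (|T| * ‖k‖ ^ 2) := by
    calc _ ≤ max (p x ^ 2 - s) 0 * (|T| * ‖k‖ ^ 2) := mul_le_mul_of_nonneg_left hT' hm0
      _ ≤ _ := mul_le_mul_of_nonneg_right hm1 (by positivity)
  nlinarith

theorem exists_function_of_tame {X : Type u} [NormedAddCommGroup X] [NormedSpace ℝ X]
    (p : Seminorm ℝ X) (a b : ℝ) (ha : 0 < a) (hb : 0 < b)
    (hp : ∀ x : X, a * ‖x‖ ≤ p x ∧ p x ≤ b * ‖x‖)
    {ι : Type} [Fintype ι] [Nonempty ι] (P : ι → X) (L : ι → ℝ) (hL : ∀ i, p (P i) ^ 2 < L i)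
    (T : ℝ) (hT : ∀ i z, (∀ j, p (P j + z) ^ 2 < L j ∧ p (P j - z) ^ 2 < L j) →
      ∀ k, om (fun x => p x ^ 2) (P i + z) k ≤ T * ‖k‖ ^ 2)  :
    ∃ g : X → ℝ, ConvexOn ℝ Set.univ g ∧ Continuous g ∧ g 0 = 0 ∧ (∀ x, g (-x) = g x) ∧
      (∃ R : ℝ, ∀ x, g x ≤ 1 / 2 → ‖x‖ ≤ R) ∧
      ∃ T' : ℝ, ∀ z, g z ≤ 1 / 2 → ∀ k, ‖k‖ ≤ 1 → om g z k ≤ T' * ‖k‖ ^ 2 := by
  have hpc : Continuous p := tg_cont p b hb (fun x => (hp x).2)
  let s : ι → ℝ := fun i => p (P i) ^ 2
  let c : ι → ℝ := fun i => 1 / (L i - s i) ^ 2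
  have hsL : ∀ i, s i < L i := hL
  have hc : ∀ i, 0 < c i := fun i => by
    have := hsL i
    have h : 0 < L i - s i := by linarith
    positivity
  let g : X → ℝ := fun z => ∑ i, c i * ((max (p (P i + z) ^ 2 - s i) 0) ^ 2
    + (max (p (P i - z) ^ 2 - s i) 0) ^ 2)
  have hbody : ∀ z, g z ≤ 1 / 2 → ∀ j, p (P j + z) ^ 2 < L j ∧ p (P j - z) ^ 2 < L j := by
    intro z hz j
    have h1 : c j * ((max (p (P j + z) ^ 2 - s j) 0) ^ 2 + (max (p (P j - z) ^ 2 - s j) 0) ^ 2) ≤ g z :=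
      Finset.single_le_sum (f := fun i => c i * ((max (p (P i + z) ^ 2 - s i) 0) ^ 2
        + (max (p (P i - z) ^ 2 - s i) 0) ^ 2))
        (fun i _ => mul_nonneg (hc i).le (by positivity)) (Finset.mem_univ j)
    have hd : 0 < L j - s j := by have := hsL j; linarith
    have hcd : c j * (L j - s j) ^ 2 = 1 := by
      show 1 / (L j - s j) ^ 2 * (L j - s j) ^ 2 = 1
      field_simp
    have key : ∀ t r : ℝ, 0 ≤ r → c j * ((max (t - s j) 0) ^ 2 + r) ≤ 1 / 2 → t < L j := by
      intro t r hr ht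
      by_contra hno
      rw [not_lt] at hno
      have h2 : L j - s j ≤ max (t - s j) 0 := le_trans (by linarith) (le_max_left _ _)
      have h3 : (L j - s j) ^ 2 ≤ (max (t - s j) 0) ^ 2 := by gcongr
      have h4 : c j * (L j - s j) ^ 2 ≤ c j * ((max (t - s j) 0) ^ 2 + r) :=
        mul_le_mul_of_nonneg_left (by linarith) (hc j).le
      linarith
    refine ⟨key _ _ (sq_nonneg _) (h1.trans hz), key _ ((max (p (P j + z) ^ 2 - s j) 0) ^ 2) (sq_nonneg _) ?_⟩
    rw [add_comm]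
    exact h1.trans hz
  refine ⟨g, ?_, ?_, ?_, ?_, ?_, ?_⟩
  · refine ⟨convex_univ, fun x _ y _ α β hα hβ hαβ => ?_⟩
    show ∑ i, c i * ((max (p (P i + (α • x + β • y)) ^ 2 - s i) 0) ^ 2
      + (max (p (P i - (α • x + β • y)) ^ 2 - s i) 0) ^ 2) ≤ α * g x + β * g y
    show _ ≤ α * (∑ i, c i * ((max (p (P i + x) ^ 2 - s i) 0) ^ 2
      + (max (p (P i - x) ^ 2 - s i) 0) ^ 2)) + β * (∑ i, c i * ((max (p (P i + y) ^ 2 - s i) 0) ^ 2
      + (max (p (P i - y) ^ 2 - s i) 0) ^ 2))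
    rw [Finset.mul_sum, Finset.mul_sum, ← Finset.sum_add_distrib]
    refine Finset.sum_le_sum fun i _ => ?_
    have e1 : P i + (α • x + β • y) = α • (P i + x) + β • (P i + y) := by
      rw [smul_add, smul_add]
      have : P i = α • P i + β • P i := by rw [← add_smul, hαβ, one_smul]
      nth_rewrite 1 [this]
      abel
    have e2 : P i - (α • x + β • y) = α • (P i - x) + β • (P i - y) := by
      rw [smul_sub, smul_sub]
      have : P i = α • P i + β • P i := by rw [← add_smul, hαβ, one_smul]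
      nth_rewrite 1 [this]
      abel
    rw [e1, e2]
    have h1 := tg_conv1 p (s i) (P i + x) (P i + y) α β hα hβ hαβ
    have h2 := tg_conv1 p (s i) (P i - x) (P i - y) α β hα hβ hαβ
    have h3 := mul_le_mul_of_nonneg_left (add_le_add h1 h2) (hc i).le
    refine h3.trans (le_of_eq ?_)
    ring
  · show Continuous fun z => ∑ i, c i * ((max (p (P i + z) ^ 2 - s i) 0) ^ 2
      + (max (p (P i - z) ^ 2 - s i) 0) ^ 2)
    fun_prop
  · show ∑ i, c i * ((max (p (P i + 0) ^ 2 - s i) 0) ^ 2 + (max (p (P i - 0) ^ 2 - s i) 0) ^ 2) = 0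
    apply Finset.sum_eq_zero
    intro i _
    rw [add_zero, sub_zero]
    show c i * ((max (p (P i) ^ 2 - p (P i) ^ 2) 0) ^ 2 + (max (p (P i) ^ 2 - p (P i) ^ 2) 0) ^ 2) = 0
    rw [sub_self, max_self]; ring
  · intro x
    show ∑ i, c i * ((max (p (P i + -x) ^ 2 - s i) 0) ^ 2 + (max (p (P i - -x) ^ 2 - s i) 0) ^ 2)
      = ∑ i, c i * ((max (p (P i + x) ^ 2 - s i) 0) ^ 2 + (max (p (P i - x) ^ 2 - s i) 0) ^ 2)
    refine Finset.sum_congr rfl fun i _ => ?_
    rw [sub_neg_eq_add, ← sub_eq_add_neg, add_comm ((max (p (P i - x) ^ 2 - s i) 0) ^ 2)]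
  · obtain ⟨i⟩ := ‹Nonempty ι›
    refine ⟨(Real.sqrt (L i) + p (P i)) / a, fun x hx => ?_⟩
    have h1 := (hbody x hx i).1
    have h2 : p (P i + x) ≤ Real.sqrt (L i) := Real.le_sqrt_of_sq_le h1.le
    have h3 : p x ≤ p (P i + x) + p (P i) := by
      have := map_sub_le_add p (P i + x) (P i)
      rwa [add_sub_cancel_left] at this
    rw [le_div_iff₀ ha, mul_comm]
    exact (hp x).1.trans (by linarith)
  · refine ⟨∑ i, c i * (2 * (2 * (L i - s i) * |T| + 2 * (b * (2 * Real.sqrt (L i) + b)) ^ 2)),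
      fun z hz k hk => ?_⟩
    have hb1 := hbody z hz
    have hb2 : ∀ j, p (P j + -z) ^ 2 < L j ∧ p (P j - -z) ^ 2 < L j := fun j => by
      rw [sub_neg_eq_add, ← sub_eq_add_neg]; exact ⟨(hb1 j).2, (hb1 j).1⟩
    have e0 : om g z k = ∑ i, c i * (((max (p ((P i + z) + k) ^ 2 - s i) 0) ^ 2
        + (max (p ((P i + z) - k) ^ 2 - s i) 0) ^ 2 - 2 * (max (p (P i + z) ^ 2 - s i) 0) ^ 2)
        + ((max (p ((P i + -z) + k) ^ 2 - s i) 0) ^ 2
        + (max (p ((P i + -z) - k) ^ 2 - s i) 0) ^ 2 - 2 * (max (p (P i + -z) ^ 2 - s i) 0) ^ 2)) := by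
      unfold om
      show (∑ i, c i * ((max (p (P i + (z + k)) ^ 2 - s i) 0) ^ 2 + (max (p (P i - (z + k)) ^ 2 - s i) 0) ^ 2))
        + (∑ i, c i * ((max (p (P i + (z - k)) ^ 2 - s i) 0) ^ 2 + (max (p (P i - (z - k)) ^ 2 - s i) 0) ^ 2))
        - 2 * (∑ i, c i * ((max (p (P i + z) ^ 2 - s i) 0) ^ 2 + (max (p (P i - z) ^ 2 - s i) 0) ^ 2)) = _
      rw [Finset.mul_sum, ← Finset.sum_add_distrib, ← Finset.sum_sub_distrib]
      refine Finset.sum_congr rfl fun i _ => ?_
      have a1 : P i + (z + k) = (P i + z) + k := by abel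
      have a2 : P i - (z + k) = (P i + -z) - k := by abel
      have a3 : P i + (z - k) = (P i + z) - k := by abel
      have a4 : P i - (z - k) = (P i + -z) + k := by abel
      have a5 : P i - z = P i + -z := by abel
      rw [a1, a2, a3, a4, a5]
      ring
    rw [e0, Finset.sum_mul]
    refine Finset.sum_le_sum fun i _ => ?_
    have h1 := tg_one p b hb (fun x => (hp x).2) (P i + z) k (s i) (L i) T (hsL i) (hb1 i).1 hk
      (hT i z hb1 k)
    have h2 := tg_one p b hb (fun x => (hp x).2) (P i + -z) k (s i) (L i) T (hsL i) (hb2 i).1 hk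
      (hT i (-z) hb2 k)
    have h3 := mul_le_mul_of_nonneg_left (add_le_add h1 h2) (hc i).le
    refine h3.trans (le_of_eq ?_)
    ring

section TGJ4
variable {X : Type u} [NormedAddCommGroup X] [NormedSpace ℝ X]

theorem tgj_om_le (p : Seminorm ℝ X) (x k : X) : om (fun y => p y) x k ≤ 2 * p k := by
  unfold om
  have h1 := map_add_le_add p x k
  have h2 := map_sub_le_add p x k
  simp only
  linarith

theorem tgj_om_neg (p : Seminorm ℝ X) (x k : X) :
    om (fun y => p y) x (-k) = om (fun y => p y) x k := by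
  unfold om
  simp only [sub_neg_eq_add, ← sub_eq_add_neg]
  ring

theorem tgj_mid (p : Seminorm ℝ X) (u v : X) :
    p ((1 / 2 : ℝ) • (u + v)) ≤ (p u + p v) / 2 := by
  rw [map_smul_eq_mul]
  have h1 := map_add_le_add p u v
  have h2 : ‖(1 / 2 : ℝ)‖ = 1 / 2 := by rw [Real.norm_eq_abs]; norm_num
  rw [h2]
  linarith

theorem tgj_om_mid (p : Seminorm ℝ X) (x u v : X) :
    om (fun y => p y) x ((1 / 2 : ℝ) • (u + v))
      ≤ (om (fun y => p y) x u + om (fun y => p y) x v) / 2 := by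
  unfold om
  simp only
  have h1 := tgj_mid p (x + u) (x + v)
  have h2 := tgj_mid p (x - u) (x - v)
  have e1 : (1 / 2 : ℝ) • ((x + u) + (x + v)) = x + (1 / 2 : ℝ) • (u + v) := by module
  have e2 : (1 / 2 : ℝ) • ((x - u) + (x - v)) = x - (1 / 2 : ℝ) • (u + v) := by module
  rw [e1] at h1
  rw [e2] at h2
  linarith

theorem tgj_grad (p : Seminorm ℝ X) (D : X →L[ℝ] ℝ) (y : X)
    (hD : HasGateauxDerivAt (fun y : X => p y) D y) (h : X) : D h ≤ p (y + h) - p y := by
  have h1 : Tendsto (fun t : ℝ => (p (y + t • h) - p y) / t) (𝓝[>] 0) (𝓝 (D h)) :=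
    (hD h).mono_left (nhdsWithin_mono _ (fun t ht => ne_of_gt ht))
  apply le_of_tendsto h1
  have h2 : Set.Ioo (0 : ℝ) 1 ∈ 𝓝[>] (0 : ℝ) := Ioo_mem_nhdsGT one_pos
  filter_upwards [h2] with t ht
  rw [div_le_iff₀ ht.1]
  have e1 : y + t • h = (1 - t) • y + t • (y + h) := by module
  have h3 : p (y + t • h) ≤ (1 - t) * p y + t * p (y + h) := by
    rw [e1]
    refine (map_add_le_add p _ _).trans ?_
    rw [map_smul_eq_mul, map_smul_eq_mul, Real.norm_eq_abs, Real.norm_eq_abs,
      abs_of_pos ht.1, abs_of_pos (by linarith [ht.2] : (0 : ℝ) < 1 - t)]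
  nlinarith

theorem tgj_dir (p : Seminorm ℝ X) (b : ℝ) (hp : ∀ x : X, p x ≤ b * ‖x‖)
    (x : X) (hx : TwiceGateauxAt (fun y : X => p y) x) (k : X) :
    ∃ M : ℝ, ∀ t : ℝ, 0 < t → om (fun y => p y) x (t • k) ≤ M * t ^ 2 := by
  obtain ⟨D, B, hD, _, hB⟩ := hx
  have hlim := (hB k k).add (hB (-k) (-k))
  have hev1 : ∀ᶠ t : ℝ in 𝓝[>] 0, (D (x + t • k) k - D x k) / t
      + (D (x + t • (-k)) (-k) - D x (-k)) / t < B k k + B (-k) (-k) + 1 :=
    hlim.eventually_lt_const (by linarith)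
  have hc : ∀ k : X, Tendsto (fun t : ℝ => x + t • k) (𝓝[>] 0) (𝓝 x) := by
    intro k
    have h1 : Continuous (fun t : ℝ => x + t • k) := by fun_prop
    have h2 := h1.tendsto 0
    simp only [zero_smul, add_zero] at h2
    exact h2.mono_left nhdsWithin_le_nhds
  have hev2 := (hc k).eventually hD
  have hev3 := (hc (-k)).eventually hD
  have hev := hev1.and (hev2.and hev3)
  obtain ⟨t1, ht1, hball⟩ := mem_nhdsGT_iff_exists_Ioo_subset.mp hev
  have ht1' : (0 : ℝ) < t1 := ht1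
  refine ⟨max (B k k + B (-k) (-k) + 1) (2 * p k / t1), ?_⟩
  intro t ht
  by_cases htt : t < t1
  · obtain ⟨h1, h2, h3⟩ := hball ⟨ht, htt⟩
    have g1 := tgj_grad p _ _ h2 (x - (x + t • k))
    have g2 := tgj_grad p _ _ h3 (x - (x + t • (-k)))
    rw [add_sub_cancel] at g1 g2
    have e1 : x - (x + t • k) = (-t) • k := by module
    have e2 : x - (x + t • (-k)) = (-t) • (-k) := by module
    rw [e1, map_smul, smul_eq_mul] at g1
    rw [e2, map_smul, smul_eq_mul] at g2
    have e3 : om (fun y => p y) x (t • k) = p (x + t • k) + p (x + t • (-k)) - 2 * p x := by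
      unfold om
      simp only [smul_neg, ← sub_eq_add_neg]
    have e4 : D x (-k) = - D x k := map_neg _ _
    have h5 : (D (x + t • k) k + D (x + t • (-k)) (-k)) / t < B k k + B (-k) (-k) + 1 := by
      rw [e4] at h1
      calc (D (x + t • k) k + D (x + t • (-k)) (-k)) / t
          = (D (x + t • k) k - D x k) / t + (D (x + t • (-k)) (-k) - -(D x k)) / t := by ring
        _ < _ := h1
    rw [div_lt_iff₀ ht] at h5
    rw [e3]
    calc p (x + t • k) + p (x + t • (-k)) - 2 * p x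
        ≤ t * (D (x + t • k) k + D (x + t • (-k)) (-k)) := by linarith
      _ ≤ t * ((B k k + B (-k) (-k) + 1) * t) := by
          apply mul_le_mul_of_nonneg_left h5.le ht.le
      _ = (B k k + B (-k) (-k) + 1) * t ^ 2 := by ring
      _ ≤ _ := by
          apply mul_le_mul_of_nonneg_right (le_max_left _ _) (by positivity)
  · push Not at htt
    calc om (fun y => p y) x (t • k) ≤ 2 * p (t • k) := tgj_om_le p x _
      _ = 2 * p k * t := by
          rw [map_smul_eq_mul, Real.norm_eq_abs, abs_of_pos ht]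
          ring
      _ ≤ 2 * p k * (t * (t / t1)) := by
          have h0 : 0 ≤ p k := apply_nonneg p k
          have h1 : 1 ≤ t / t1 := by rwa [one_le_div ht1']
          have h2 : t ≤ t * (t / t1) := by nlinarith
          apply mul_le_mul_of_nonneg_left h2 (by positivity)
      _ = 2 * p k / t1 * t ^ 2 := by ring
      _ ≤ _ := by
          apply mul_le_mul_of_nonneg_right (le_max_right _ _) (by positivity)

end TGJ4

theorem bound_of_twiceGateaux {X : Type u} [NormedAddCommGroup X] [NormedSpace ℝ X]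
    [CompleteSpace X] (p : Seminorm ℝ X) (b : ℝ) (hp : ∀ x : X, p x ≤ b * ‖x‖)
    (x : X) (hx : TwiceGateauxAt (fun y : X => p y) x) :
    ∃ C : ℝ, ∀ h : X, om (fun y => p y) x h ≤ C * ‖h‖ ^ 2 := by
  have hpc : Continuous (fun y : X => p y) := by
    have h1 : Continuous p := by
      apply Seminorm.continuous_of_le (q := b.toNNReal • normSeminorm ℝ X)
      · have h0 : Continuous (fun y : X => (b.toNNReal : ℝ) * ‖y‖) := by fun_prop
        exact h0
      · intro y
        refine (hp y).trans ?_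
        have e1 : (b.toNNReal • normSeminorm ℝ X) y = (b.toNNReal : ℝ) * ‖y‖ := rfl
        rw [e1]
        apply mul_le_mul_of_nonneg_right (Real.le_coe_toNNReal b) (norm_nonneg y)
    exact h1
  have hWc : Continuous (fun k : X => om (fun y => p y) x k) := by
    unfold om
    have a1 : Continuous (fun k : X => p (x + k)) := hpc.comp (by fun_prop)
    have a2 : Continuous (fun k : X => p (x - k)) := hpc.comp (by fun_prop)
    exact (a1.add a2).sub continuous_const
  let A : ℕ → Set X := fun n => {k | ∀ t : ℝ, 0 < t → om (fun y => p y) x (t • k) ≤ n * t ^ 2}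
  have hA : ∀ n, IsClosed (A n) := by
    intro n
    have : A n = ⋂ t : ℝ, ⋂ _ : 0 < t, {k | om (fun y => p y) x (t • k) ≤ n * t ^ 2} := by
      ext k
      simp [A]
    rw [this]
    apply isClosed_iInter
    intro t
    apply isClosed_iInter
    intro _
    exact isClosed_le (hWc.comp (by fun_prop)) continuous_const
  have hU : ⋃ n, A n = Set.univ := by
    rw [Set.eq_univ_iff_forall]
    intro k
    obtain ⟨M, hM⟩ := tgj_dir p b hp x hx k
    rw [Set.mem_iUnion]
    refine ⟨⌈M⌉₊, ?_⟩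
    intro t ht
    refine (hM t ht).trans ?_
    apply mul_le_mul_of_nonneg_right (Nat.le_ceil M) (by positivity)
  obtain ⟨n, k0, hk0⟩ := nonempty_interior_of_iUnion_of_closed hA hU
  rw [mem_interior_iff_mem_nhds, Metric.mem_nhds_iff] at hk0
  obtain ⟨r, hr, hball⟩ := hk0
  have hneg : ∀ k, k ∈ A n → -k ∈ A n := by
    intro k hk t ht
    rw [smul_neg, tgj_om_neg]
    exact hk t ht
  have hzero : ∀ k : X, ‖k‖ < r → k ∈ A n := by
    intro k hk t ht
    have m1 : k0 + k ∈ A n := hball (by rw [mem_ball_iff_norm, add_sub_cancel_left]; exact hk)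
    have m2 : k0 - k ∈ A n := hball (by
      rw [mem_ball_iff_norm, sub_sub_cancel_left, norm_neg]; exact hk)
    have m3 := hneg _ m2
    have m1' := m1 t ht
    have m3' := m3 t ht
    have e : t • k = (1 / 2 : ℝ) • (t • (k0 + k) + t • (-(k0 - k))) := by module
    rw [e]
    refine (tgj_om_mid p x _ _).trans ?_
    linarith
  refine ⟨n * (2 / r) ^ 2, ?_⟩
  intro h
  by_cases hh : h = 0
  · rw [hh]
    have : om (fun y => p y) x 0 = 0 := by
      unfold om
      simp
      ring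
    rw [this]
    simp
  · have hn : 0 < ‖h‖ := norm_pos_iff.mpr hh
    have hk := hzero ((r / (2 * ‖h‖)) • h) (by
      rw [norm_smul, Real.norm_eq_abs, abs_of_pos (by positivity)]
      have : r / (2 * ‖h‖) * ‖h‖ = r / 2 := by field_simp
      rw [this]
      linarith) (2 * ‖h‖ / r) (by positivity)
    rw [smul_smul] at hk
    have e1 : 2 * ‖h‖ / r * (r / (2 * ‖h‖)) = 1 := by field_simp
    rw [e1, one_smul] at hk
    refine hk.trans (le_of_eq ?_)
    ring

theorem exists_unit_lt {Z : Type u} [NormedAddCommGroup Z] [NormedSpace ℝ Z]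
    (f : Z →L[ℝ] ℝ) (r : ℝ) (hr0 : 0 ≤ r) (hr : r < ‖f‖) : ∃ x : Z, ‖x‖ = 1 ∧ r < f x := by
  obtain ⟨x, hx1, hx2⟩ := f.exists_lt_apply_of_lt_opNorm hr
  have hfx : 0 < ‖f x‖ := lt_of_le_of_lt hr0 hx2
  have hx0 : x ≠ 0 := by
    intro h
    rw [h, map_zero, norm_zero] at hfx
    exact lt_irrefl _ hfx
  have hxn : 0 < ‖x‖ := norm_pos_iff.2 hx0
  have key : r < |f x| * ‖x‖⁻¹ := by
    have h1 : 1 ≤ ‖x‖⁻¹ := (one_le_inv₀ hxn).2 hx1.le
    have h2 : |f x| ≤ |f x| * ‖x‖⁻¹ := le_mul_of_one_le_right (abs_nonneg _) h1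
    rw [Real.norm_eq_abs] at hx2
    linarith
  rcases le_total 0 (f x) with h | h
  · refine ⟨‖x‖⁻¹ • x, ?_, ?_⟩
    · rw [norm_smul, norm_inv, norm_norm, inv_mul_cancel₀ hxn.ne']
    · rw [map_smul, smul_eq_mul, mul_comm]
      rwa [abs_of_nonneg h] at key
  · refine ⟨(-‖x‖⁻¹) • x, ?_, ?_⟩
    · rw [norm_smul, norm_neg, norm_inv, norm_norm, inv_mul_cancel₀ hxn.ne']
    · rw [map_smul, smul_eq_mul]
      rw [abs_of_nonpos h] at key
      linarith

theorem riesz_norm {V : Type u} [NormedAddCommGroup V] [NormedSpace ℝ V] (F : Subspace ℝ V)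
    (hFc : IsClosed (F : Set V)) (hF : ∃ x, x ∉ F) (θ : ℝ) (hθ1 : θ < 1) :
    ∃ Ψ : V, ‖Ψ‖ = 1 ∧ ∀ y ∈ F, θ ≤ ‖Ψ - y‖ := by
  obtain ⟨Ψ₀, hΨ₀R, hΨ₀⟩ := riesz_lemma hFc hF hθ1
  have hΨ₀ne : Ψ₀ ≠ 0 := by
    rintro rfl
    exact hΨ₀R F.zero_mem
  have hΨ₀n : 0 < ‖Ψ₀‖ := norm_pos_iff.2 hΨ₀ne
  refine ⟨‖Ψ₀‖⁻¹ • Ψ₀, ?_, ?_⟩
  · rw [norm_smul, norm_inv, norm_norm, inv_mul_cancel₀ hΨ₀n.ne']
  · intro y hy
    have h1 := hΨ₀ (‖Ψ₀‖ • y) (F.smul_mem _ hy)
    have h2 : ‖Ψ₀‖⁻¹ • Ψ₀ - y = ‖Ψ₀‖⁻¹ • (Ψ₀ - ‖Ψ₀‖ • y) := by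
      rw [smul_sub, smul_smul, inv_mul_cancel₀ hΨ₀n.ne', one_smul]
    rw [h2, norm_smul, norm_inv, norm_norm, inv_mul_eq_div, le_div_iff₀ hΨ₀n]
    exact h1

theorem restrict_norm {V : Type u} [NormedAddCommGroup V] [NormedSpace ℝ V] (Ψ G : V →L[ℝ] ℝ)
    (θ : ℝ) (f1 : V) (hG : 0 < G f1) (hd : ∀ c : ℝ, θ ≤ ‖Ψ - c • G‖) (r : ℝ) (hr0 : 0 ≤ r)
    (hr : r < θ) : ∃ f : V, ‖f‖ = 1 ∧ G f = 0 ∧ r < Ψ f := by
  let W : Subspace ℝ V := G.toLinearMap.ker
  have hWmem : ∀ f : V, f ∈ W ↔ G f = 0 := fun f => Iff.rfl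
  obtain ⟨Φ, hΦ1, hΦ2⟩ := exists_extension_norm_eq W (Ψ.comp W.subtypeL)
  have hΦW : ∀ f ∈ W, Φ f = Ψ f := fun f hf => hΦ1 ⟨f, hf⟩
  have hΦeq : Φ = Ψ - ((Ψ - Φ) f1 / G f1) • G := by
    ext f
    have h1 : f - (G f / G f1) • f1 ∈ W := by
      rw [hWmem, map_sub, map_smul, smul_eq_mul, div_mul_cancel₀ _ hG.ne', sub_self]
    have h2 := hΦW _ h1
    rw [map_sub, map_sub, map_smul, map_smul, smul_eq_mul, smul_eq_mul] at h2
    rw [ContinuousLinearMap.sub_apply, ContinuousLinearMap.smul_apply, smul_eq_mul,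
      ContinuousLinearMap.sub_apply]
    have h3 : (Ψ f1 - Φ f1) / G f1 * G f = G f / G f1 * (Ψ f1 - Φ f1) := by
      field_simp
    rw [h3]
    linarith
  have hΦn : θ ≤ ‖Ψ.comp W.subtypeL‖ := by
    rw [← hΦ2, hΦeq]
    exact hd _
  obtain ⟨f2', hf2n, hf2⟩ := exists_unit_lt (Ψ.comp W.subtypeL) r hr0
    (lt_of_lt_of_le hr hΦn)
  exact ⟨f2', hf2n, (hWmem _).1 f2'.2, hf2⟩

theorem core_reflexive {Z : Type u} [NormedAddCommGroup Z] [NormedSpace ℝ Z] [CompleteSpace Z]
    (K : ℝ) (hK : 0 < K) (hs : ∀ x h : Z, ‖x‖ = 1 → ‖x + h‖ + ‖x - h‖ ≤ 2 + K * ‖h‖ ^ 2) :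
    Reflexive Z := by
  unfold Reflexive
  by_contra hns
  set t : ℝ := 1 / (4 * K) with ht
  have htpos : 0 < t := by positivity
  have hKt : K * t ^ 2 = t / 4 := by rw [ht]; field_simp
  set δ : ℝ := min (1/8) (t / 32) with hδ
  have hδpos : 0 < δ := lt_min (by norm_num) (by positivity)
  have hδ1 : δ ≤ 1/8 := min_le_left _ _
  have hδ2 : δ ≤ t / 32 := min_le_right _ _
  set θ : ℝ := 1 - δ with hθ
  have hθ0 : 0 < θ := by rw [hθ]; linarith
  have hθ1 : θ < 1 := by rw [hθ]; linarith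
  have hθ2 : 1 - 2 * δ ≤ θ ^ 2 := by rw [hθ]; nlinarith
  have hθθ : θ ^ 2 < θ := by nlinarith
  let J := NormedSpace.inclusionInDoubleDual ℝ Z
  have hJn : ∀ z, ‖J z‖ = ‖z‖ := fun z => (NormedSpace.inclusionInDoubleDualLi ℝ).norm_map z
  have hJa : ∀ (z : Z) (f : StrongDual ℝ Z), J z f = f z := fun z f => NormedSpace.dual_def ℝ Z z f
  -- the range is closed
  let R : Subspace ℝ (StrongDual ℝ (StrongDual ℝ Z)) := J.toLinearMap.range
  have hRc : IsClosed (R : Set (StrongDual ℝ (StrongDual ℝ Z))) := by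
    have h1 : IsClosed (Set.range (NormedSpace.inclusionInDoubleDualLi (E := Z) ℝ)) :=
      (NormedSpace.inclusionInDoubleDualLi (E := Z) ℝ).isometry.isUniformInducing.isComplete_range.isClosed
    have h2 : (R : Set (StrongDual ℝ (StrongDual ℝ Z))) =
        Set.range (NormedSpace.inclusionInDoubleDualLi (E := Z) ℝ) := by
      ext x
      constructor
      · rintro ⟨z, rfl⟩
        exact ⟨z, rfl⟩
      · rintro ⟨z, rfl⟩
        exact ⟨z, rfl⟩
    rw [h2]; exact h1
  have hRne : ∃ x, x ∉ R := by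
    by_contra hcon
    push Not at hcon
    apply hns
    intro x
    obtain ⟨z, hz⟩ := hcon x
    exact ⟨z, hz⟩
  obtain ⟨Ψ, hΨ1, hΨd'⟩ := riesz_norm (V := StrongDual ℝ (StrongDual ℝ Z)) R hRc hRne θ hθ1
  have hΨd : ∀ z, θ ≤ ‖Ψ - J z‖ := fun z => hΨd' _ ⟨z, rfl⟩
  -- f1
  obtain ⟨f1, hf1n, hf1⟩ := exists_unit_lt Ψ θ hθ0.le (by rw [hΨ1]; exact hθ1)
  obtain ⟨x1, hx1n, hx1⟩ := exists_unit_lt f1 θ hθ0.le (by rw [hf1n]; exact hθ1)
  have hx1pos : 0 < f1 x1 := hθ0.trans hx1
  -- f2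
  obtain ⟨f2, hf2n', hf2x0, hf2'⟩ := restrict_norm Ψ (J x1) θ f1 (by rw [hJa]; exact hx1pos)
    (fun c => by
      have := hΨd (c • x1)
      rwa [map_smul] at this) (θ ^ 2) (by positivity) hθθ
  have hf2x : f2 x1 = 0 := by rw [← hJa]; exact hf2x0
  -- the sum
  have hsum : 2 * θ ^ 2 < ‖f1 + f2‖ := by
    have h1 : Ψ (f1 + f2) ≤ ‖f1 + f2‖ := by
      have := Ψ.le_opNorm (f1 + f2)
      rw [hΨ1, one_mul] at this
      exact (le_abs_self _).trans this
    rw [map_add] at h1
    linarith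
  obtain ⟨x, hxn, hx⟩ := exists_unit_lt (f1 + f2) (2 * θ ^ 2) (by positivity) hsum
  have hmain := hs x (t • x1) hxn
  have hb1 : f1 (x + t • x1) ≤ ‖x + t • x1‖ := by
    have := f1.le_opNorm (x + t • x1)
    rw [hf1n, one_mul] at this
    exact (le_abs_self _).trans this
  have hb2 : f2 (x - t • x1) ≤ ‖x - t • x1‖ := by
    have := f2.le_opNorm (x - t • x1)
    rw [hf2n', one_mul] at this
    exact (le_abs_self _).trans this
  rw [map_add, map_smul, smul_eq_mul] at hb1
  rw [map_sub, map_smul, smul_eq_mul, hf2x, mul_zero, sub_zero] at hb2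
  rw [norm_smul, Real.norm_of_nonneg htpos.le, hx1n, mul_one, hKt] at hmain
  rw [ContinuousLinearMap.add_apply] at hx
  have h5 : t * θ < t * f1 x1 := mul_lt_mul_of_pos_left hx1 htpos
  have h6 : t * θ ≥ t * (7/8) := mul_le_mul_of_nonneg_left (by rw [hθ]; linarith) htpos.le
  linarith

/-- the space `Y` with the norm `p` -/
def PN (Y : Type v) [NormedAddCommGroup Y] [NormedSpace ℝ Y] (_p : Seminorm ℝ Y) : Type v := Y

section
variable {Y : Type v} [NormedAddCommGroup Y] [NormedSpace ℝ Y] (p : Seminorm ℝ Y)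

instance : AddCommGroup (PN Y p) := inferInstanceAs (AddCommGroup Y)
instance : Module ℝ (PN Y p) := inferInstanceAs (Module ℝ Y)

theorem Reflexive.of_equiv {Y : Type v} {Z : Type v} [NormedAddCommGroup Y] [NormedSpace ℝ Y]
    [NormedAddCommGroup Z] [NormedSpace ℝ Z] (e : Y ≃L[ℝ] Z) (hZ : Reflexive Z) : Reflexive Y := by
  intro Ψ
  -- the induced functional on Z**
  let A : StrongDual ℝ Z →L[ℝ] StrongDual ℝ Y :=
    (ContinuousLinearMap.compL ℝ Y Z ℝ).flip (e : Y →L[ℝ] Z)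
  have hA : ∀ g, A g = g.comp (e : Y →L[ℝ] Z) := fun g => rfl
  obtain ⟨z, hz⟩ := hZ (Ψ.comp A)
  refine ⟨e.symm z, ?_⟩
  ext f
  have h1 := congrArg (fun G => G (f.comp (e.symm : Z →L[ℝ] Y))) hz
  simp only [NormedSpace.dual_def, ContinuousLinearMap.comp_apply, hA] at h1
  rw [NormedSpace.dual_def]
  have h2 : (f.comp (e.symm : Z →L[ℝ] Y)).comp (e : Y →L[ℝ] Z) = f := by
    ext y; simp
  rw [h2] at h1
  rw [← h1]
  simp

end

theorem reflexive_of_smoothRenormable {Y : Type v} [NormedAddCommGroup Y] [NormedSpace ℝ Y]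
    [CompleteSpace Y] (hY : SmoothRenormable Y) : Reflexive Y := by
  obtain ⟨p, ⟨a, b, ha, hb, hab⟩, K, hK, hs⟩ := hY
  let N : AddGroupNorm (PN Y p) :=
    { toFun := fun x => p (show Y from x)
      map_zero' := map_zero p
      add_le' := fun x y => map_add_le_add p _ _
      neg' := fun x => map_neg_eq_map p _
      eq_zero_of_map_eq_zero' := fun x hx => by
        have h1 := (hab (show Y from x)).1
        have h2 : p (show Y from x) = 0 := hx
        rw [h2] at h1
        have h3 : ‖(show Y from x)‖ = 0 := by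
          have := norm_nonneg (show Y from x)
          nlinarith
        exact norm_eq_zero.1 h3 }
  letI i1 : NormedAddCommGroup (PN Y p) := N.toNormedAddCommGroup
  have hnorm : ∀ x : PN Y p, ‖x‖ = p (show Y from x) := fun x => rfl
  letI i2 : NormedSpace ℝ (PN Y p) :=
    { norm_smul_le := fun r x => (map_smul_eq_mul p r (show Y from x)).le }
  let e0 : Y ≃ₗ[ℝ] PN Y p := LinearEquiv.refl ℝ Y
  let e : Y ≃L[ℝ] PN Y p := e0.toContinuousLinearEquivOfBounds b a⁻¹
    (fun y => (hab y).2) (fun y => by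
      have h1 := (hab (show Y from y)).1
      rw [inv_mul_eq_div, le_div_iff₀ ha, mul_comm]
      exact h1)
  haveI : CompleteSpace (PN Y p) := by
    rw [← completeSpace_congr (e := e.toEquiv) e.isUniformEmbedding]
    infer_instance
  apply Reflexive.of_equiv e
  apply core_reflexive K hK
  intro x h hx
  exact hs _ _ hx

section final
variable {X : Type u} [NormedAddCommGroup X] [NormedSpace ℝ X]

theorem om_sq_le (p : Seminorm ℝ X) (x h : X) :
    om (fun y => p y ^ 2) x h ≤ 2 * p h ^ 2 + 2 * p x * om (fun y => p y) x h := by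
  unfold om
  have h1 : p (x + h) ≤ p x + p h := map_add_le_add p x h
  have h2 : p (x - h) ≤ p x + p h := map_sub_le_add p x h
  have h3 : p x ≤ p (x + h) + p h := by
    have := map_sub_le_add p (x + h) h
    simpa using this
  have h4 : p x ≤ p (x - h) + p h := by
    have := map_add_le_add p (x - h) h
    simpa using this
  have a1 : (p (x + h) - p x) ^ 2 ≤ p h ^ 2 := by
    apply sq_le_sq' <;> linarith
  have a2 : (p (x - h) - p x) ^ 2 ≤ p h ^ 2 := by
    apply sq_le_sq' <;> linarith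
  nlinarith

theorem smoothRenormable_of_twiceGateaux [CompleteSpace X] (hX : AdmitsTwiceGateauxNorm X)
    (hc : ¬ ContainsC0 X) : SmoothRenormable X := by
  obtain ⟨p, ⟨a, b, ha, hb, hp⟩, htw⟩ := hX
  have hcont : Continuous (fun x => p x ^ 2) := (tg_cont p b hb fun x => (hp x).2).pow 2
  have hconv : ConvexOn ℝ Set.univ (fun x => p x ^ 2) :=
    ⟨convex_univ, fun x _ y _ a b ha hb hab => by
      simpa [smul_eq_mul] using tg_convF p x y a b ha hb hab⟩
  have hfin : ∀ x, ∃ T, ¬ Bad (fun x => p x ^ 2) T x := by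
    intro x
    have hph : ∀ h, p h ^ 2 ≤ b ^ 2 * ‖h‖ ^ 2 := fun h => by
      rw [← mul_pow]; exact pow_le_pow_left₀ (apply_nonneg p h) (hp h).2 2
    by_cases hx : x = 0
    · subst hx
      refine ⟨2 * b ^ 2, ?_⟩
      rintro ⟨k, hk⟩
      have := om_sq_le p 0 k
      simp only [map_zero, mul_zero, zero_mul, add_zero] at this
      nlinarith [hph k]
    · obtain ⟨C, hC⟩ := bound_of_twiceGateaux p b (fun x => (hp x).2) x (htw x hx)
      refine ⟨2 * b ^ 2 + 2 * p x * C, ?_⟩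
      rintro ⟨k, hk⟩
      have h1 := om_sq_le p x k
      have h2 : 2 * p x * om (fun y => p y) x k ≤ 2 * p x * (C * ‖k‖ ^ 2) :=
        mul_le_mul_of_nonneg_left (hC k) (by positivity)
      nlinarith [hph k]
  obtain ⟨n, s, hs⟩ := core hconv hcont hfin (1 / a) (fun x hx => by
    have h1 : p x < 1 := by
      by_contra h
      push Not at h
      have : (1 : ℝ) ≤ p x ^ 2 := one_le_pow₀ h
      linarith
    rw [le_div_iff₀ ha]
    linarith [(hp x).1]) (by simp) (fun h C hC ε => cauchy_of_bounded_signs hc h C hC ε)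
  choose T hT using hs
  obtain ⟨g, g1, g2, g3, g4, ⟨R, g5⟩, ⟨T', g6⟩⟩ := exists_function_of_tame p a b ha hb hp s.P s.L s.hL
    (∑ i, |T i|) (fun i z hz k => by
      have h1 := hT i z hz
      unfold Bad at h1
      push Not at h1
      refine le_trans (h1 k) (mul_le_mul_of_nonneg_right ?_ (by positivity))
      exact le_trans (le_abs_self _) (Finset.single_le_sum (f := fun i => |T i|)
        (fun i _ => abs_nonneg _) (Finset.mem_univ i)))
  exact smoothRenormable_of_function g g1 g2 g3 g4 R g5 T' g6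

end final

/-- Q1, positive answer: a Banach space that admits a twice Gateaux differentiable norm and contains
no copy of `c_0` is superreflexive. -/
theorem result {X : Type u} [NormedAddCommGroup X] [NormedSpace ℝ X] [CompleteSpace X]
    (hX : AdmitsTwiceGateauxNorm X) (hc : ¬ ContainsC0 X) : SuperReflexive.{u, v} X := by
  intro Y _ _ _ hY
  exact reflexive_of_smoothRenormable
    (smooth_of_finitelyRepresentable (smoothRenormable_of_twiceGateaux hX hc) hY)

end Pool.Agent.Results.MP_b4da01_an.SuperreflexiveYes
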